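import Pool.Agent.Lib.MP_0e7911_co_full.Sys

/-! The two transformations of two-level systems. -/

set_option autoImplicit false

namespace Pool.Agent.Lib.MP_0e7911_co_full

open Finset

variable {K : Type*} [Field K] {q t : K} {V0 V1 : Type*} [AddCommGroup V0] [Module K V0]
    [AddCommGroup V1] [Module K V1]

theorem Sys.Dp_apply (S : Sys q t V0 V1) (v : V0) : S.Dp v = S.d (S.y (S.io v)) := rfl

theorem Sys.D_apply (S : Sys q t V0 V1) (v : V0) : S.D v = S.d (S.io v) := rfl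

theorem Sys.Dp_eq' (S : Sys q t V0 V1) (v : V0) :
    MM q t • S.Dp v = S.E (S.D v) - S.D (S.E v) := by
  rw [S.Dp_apply, S.D_apply, S.D_apply, S.E_d, S.io_E, map_sub, map_smul]
  module

theorem Sys.Dp_eq (S : Sys q t V0 V1) (hM : MM q t ≠ 0) :
    S.Dp = (MM q t)⁻¹ • (S.E * S.D - S.D * S.E) := by
  ext v
  rw [LinearMap.smul_apply, LinearMap.sub_apply, Module.End.mul_apply, Module.End.mul_apply,
    ← S.Dp_eq' v, smul_smul, inv_mul_cancel₀ hM, one_smul]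

theorem Sys.DDp_eq (S : Sys q t V0 V1) (hM : MM q t ≠ 0) (v : V1) :
    MM q t • S.DDp v = S.EE (S.DD v) - S.DD (S.EE v) := by
  unfold Sys.DDp
  rw [LinearMap.smul_apply, smul_smul, mul_inv_cancel₀ hM, one_smul]
  rfl

theorem Sys.smul_cancel {V : Type*} [AddCommGroup V] [Module K V] (hM : MM q t ≠ 0) {v w : V}
    (h : MM q t • v = MM q t • w) : v = w := by
  have := congrArg (fun x => (MM q t)⁻¹ • x) h
  simpa only [smul_smul, inv_mul_cancel₀ hM, one_smul] using this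

theorem Sys.DDp_y (S : Sys q t V0 V1) (hM : MM q t ≠ 0) (v : V1) :
    S.DDp (S.y v) = S.y (S.DDp v) - MM q t • S.y (S.y (S.Z v)) := by
  apply Sys.smul_cancel hM
  rw [smul_sub, ← map_smul S.y, S.DDp_eq hM, S.DDp_eq hM, ← S.y_EE, S.DD_y, S.DD_y, S.Z_EE]
  simp only [map_sub, map_smul, ← S.y_EE]
  module

theorem Sys.DDp_Z (S : Sys q t V0 V1) (hM : MM q t ≠ 0) (v : V1) :
    S.DDp (S.Z v) = S.Z (S.DDp v) + MM q t • S.y (S.Z (S.Z v)) := by
  apply Sys.smul_cancel hM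
  rw [smul_add, ← map_smul S.Z, S.DDp_eq hM, S.DDp_eq hM, map_sub, S.Z_EE, ← S.DD_Z, ← S.DD_Z,
    S.Z_EE, map_sub, map_smul, S.DD_y]
  simp only [S.DD_Z]
  module

theorem Sys.Dp_dd (S : Sys q t V0 V1) (hM : MM q t ≠ 0) (v : V1) :
    S.d (S.y (S.io (S.d v))) = S.d (S.DDp v) := by
  apply Sys.smul_cancel hM
  rw [← S.Dp_apply, S.Dp_eq', ← map_smul S.d, S.DDp_eq hM, S.D_apply, S.D_apply, S.D_d, S.E_d,
    S.E_d, S.D_d, map_sub]

theorem Sys.DDp_io (S : Sys q t V0 V1) (hM : MM q t ≠ 0) (v : V0) :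
    S.DDp (S.io v) = S.io (S.Dp v) + MM q t • S.y (S.Z (S.io v)) := by
  apply Sys.smul_cancel hM
  have h1 : S.EE (S.io v) = S.io (S.E v) + MM q t • S.y (S.io v) := by
    rw [S.io_E]; module
  have h2 : S.EE (S.io (S.d (S.io v))) = S.io (S.E (S.d (S.io v))) +
      MM q t • S.y (S.io (S.d (S.io v))) := by
    rw [S.io_E]; module
  rw [smul_add, ← map_smul S.io, S.Dp_eq', S.DDp_eq hM, S.DD_io, h1, h2, map_add, map_smul,
    S.DD_y, S.DD_io, S.DD_io, map_sub, S.D_apply, S.D_apply]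
  module

/-- `τ`: `(y, Z, ι, 𝒟, E, Ê) ↦ (y, yZ, yι, 𝒟', E, Ê)` -/
def Sys.tau (S : Sys q t V0 V1) (hM : MM q t ≠ 0) : Sys q t V0 V1 where
  d := S.d
  io := S.y ∘ₗ S.io
  y := S.y
  Z := S.y ∘ₗ S.Z
  DD := S.DDp
  E := S.E
  EE := S.EE
  DD_io v := by
    simp only [LinearMap.comp_apply]
    rw [S.DDp_y hM, S.DDp_io hM, map_add, map_smul, S.Dp_apply]
    module
  D_d v := S.Dp_dd hM v
  DD_Z v := by
    simp only [LinearMap.comp_apply]
    rw [S.DDp_y hM, S.DDp_Z hM, map_add, map_smul]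
    module
  DD_y v := S.DDp_y hM v
  io_d_y v := by
    simp only [LinearMap.comp_apply]
    rw [S.io_d_y, map_sub, map_smul]
  E_d v := S.E_d v
  io_E v := by
    simp only [LinearMap.comp_apply]
    rw [S.io_E, map_sub, map_smul, S.y_EE]
  Z_EE v := by
    simp only [LinearMap.comp_apply]
    rw [S.Z_EE, map_sub, map_smul, S.y_EE]
  y_EE v := S.y_EE v

/-- `∇`: `(y, Z, ι, 𝒟, E, Ê) ↦ (yZ, Z, ι, 𝒟, D', 𝒟')` -/
def Sys.nab (S : Sys q t V0 V1) (hM : MM q t ≠ 0) : Sys q t V0 V1 where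
  d := S.d
  io := S.io
  y := S.y ∘ₗ S.Z
  Z := S.Z
  DD := S.DD
  E := S.Dp
  EE := S.DDp
  DD_io v := S.DD_io v
  D_d v := S.D_d v
  DD_Z v := S.DD_Z v
  DD_y v := by
    simp only [LinearMap.comp_apply]
    rw [S.DD_y, S.DD_Z]
  io_d_y v := by
    simp only [LinearMap.comp_apply]
    rw [S.io_d_y]
  E_d v := S.Dp_dd hM v
  io_E v := by
    simp only [LinearMap.comp_apply]
    rw [S.DDp_io hM]
    module
  Z_EE v := by
    simp only [LinearMap.comp_apply]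
    rw [S.DDp_Z hM]
    module
  y_EE v := by
    simp only [LinearMap.comp_apply]
    rw [S.DDp_y hM, S.DDp_Z hM, map_add, map_smul]
    module

end Pool.Agent.Lib.MP_0e7911_co_full
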