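import Pool.Agent.Lib.MP_0e7911_co_h88.B1

/-! The word calculus of a two-level system. -/

set_option autoImplicit false

namespace Pool.Agent.Lib.MP_0e7911_co_full

open Finset

theorem comm_pow {A : Type*} [Ring A] (X P W : A) (h : X * P = P * X + W) (n : ℕ) :
    X * P ^ n = P ^ n * X + ∑ i ∈ range n, P ^ i * W * P ^ (n - 1 - i) := by
  induction n with
  | zero => simp
  | succ n ih =>
    rw [pow_succ, ← mul_assoc, ih, add_mul, mul_assoc, h, Finset.sum_mul, mul_add, ← mul_assoc,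
      ← pow_succ, Finset.sum_range_succ, add_assoc]
    congr 1
    rw [add_comm]
    congr 1
    · apply Finset.sum_congr rfl
      intro i hi
      rw [Finset.mem_range] at hi
      rw [mul_assoc, ← pow_succ]
      congr 2
      omega
    · simp

variable {K : Type*} [Field K] {q t : K} {V0 V1 : Type*} [AddCommGroup V0] [Module K V0]
    [AddCommGroup V1] [Module K V1]

namespace Sys

section ring

variable (S : Sys q t V0 V1)

/-- `y` as a ring element -/
def ry : Module.End K V1 := S.y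
/-- `Z` as a ring element -/
def rZ : Module.End K V1 := S.Z
/-- `𝒟` as a ring element -/
def rD : Module.End K V1 := S.DD
/-- `Ê` as a ring element -/
def rE : Module.End K V1 := S.EE
/-- `𝒟'` as a ring element -/
def rDp : Module.End K V1 := S.DDp

theorem P_eq : S.P = S.ry * S.rZ := rfl

theorem phi_apply (u : Module.End K V1) (v : V0) : S.phi u v = S.d (u (S.io v)) := rfl

theorem phi_add (u v : Module.End K V1) : S.phi (u + v) = S.phi u + S.phi v := by
  ext x
  simp only [phi_apply, LinearMap.add_apply, map_add]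

theorem phi_sub (u v : Module.End K V1) : S.phi (u - v) = S.phi u - S.phi v := by
  ext x
  simp only [phi_apply, LinearMap.sub_apply, map_sub]

theorem phi_smul (c : K) (u : Module.End K V1) : S.phi (c • u) = c • S.phi u := by
  ext x
  simp only [phi_apply, LinearMap.smul_apply, map_smul]

theorem phi_zero : S.phi 0 = 0 := by
  ext x
  simp only [phi_apply, LinearMap.zero_apply, map_zero]

theorem phi_sum {ι : Type*} (s : Finset ι) (f : ι → Module.End K V1) :
    S.phi (∑ i ∈ s, f i) = ∑ i ∈ s, S.phi (f i) := by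
  classical
  induction s using Finset.induction_on with
  | empty => simp [phi_zero]
  | insert a s ha ih => rw [Finset.sum_insert ha, Finset.sum_insert ha, phi_add, ih]

theorem rD_Z : S.rD * S.rZ = S.rZ * S.rD := by
  ext v
  exact S.DD_Z v

theorem rD_y : S.rD * S.ry = S.ry * S.rD - MM q t • S.P := by
  ext v
  exact S.DD_y v

theorem rE_y : S.rE * S.ry = S.ry * S.rE := by
  ext v
  exact (S.y_EE v).symm

theorem rE_Z : S.rE * S.rZ = S.rZ * S.rE + MM q t • S.P := by
  ext v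
  change S.EE (S.Z v) = S.Z (S.EE v) + MM q t • S.y (S.Z v)
  rw [S.Z_EE]
  module

theorem rDp_y (hM : MM q t ≠ 0) : S.rDp * S.ry = S.ry * S.rDp - MM q t • (S.ry * S.P) := by
  ext v
  exact S.DDp_y hM v

theorem rDp_Z (hM : MM q t ≠ 0) : S.rDp * S.rZ = S.rZ * S.rDp + MM q t • (S.P * S.rZ) := by
  ext v
  exact S.DDp_Z hM v

theorem rDp_P (hM : MM q t ≠ 0) : S.rDp * S.P = S.P * S.rDp := by
  rw [P_eq, ← mul_assoc, S.rDp_y hM, sub_mul, mul_assoc, S.rDp_Z hM, mul_add, smul_mul_assoc,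
    mul_smul_comm, mul_assoc, mul_assoc, P_eq]
  simp only [mul_assoc]
  abel

theorem rDp_P_pow (hM : MM q t ≠ 0) (n : ℕ) : S.rDp * S.P ^ n = S.P ^ n * S.rDp :=
  (Commute.pow_right (show Commute S.rDp S.P from S.rDp_P hM) n)

theorem rE_P : S.rE * S.P = S.P * S.rE + MM q t • (S.ry * S.P) := by
  rw [P_eq, ← mul_assoc, S.rE_y, mul_assoc, S.rE_Z, mul_add, mul_smul_comm, mul_assoc, P_eq]

theorem rE_P_pow (n : ℕ) : S.rE * S.P ^ n = S.P ^ n * S.rE +
    MM q t • ∑ i ∈ range n, S.P ^ i * S.ry * S.P ^ (n - i) := by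
  rw [comm_pow _ _ _ S.rE_P n, Finset.smul_sum]
  congr 1
  apply Finset.sum_congr rfl
  intro i hi
  rw [Finset.mem_range] at hi
  rw [mul_smul_comm, smul_mul_assoc]
  congr 1
  rw [← mul_assoc, mul_assoc (S.P ^ i * S.ry), ← pow_succ']
  congr 2
  omega

theorem rD_P : S.rD * S.P = S.P * S.rD + -(MM q t • (S.P * S.rZ)) := by
  rw [P_eq, ← mul_assoc, S.rD_y, sub_mul, mul_assoc, S.rD_Z, smul_mul_assoc, P_eq]
  simp only [mul_assoc]
  abel

theorem rD_P_pow (n : ℕ) : S.rD * S.P ^ n = S.P ^ n * S.rD -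
    MM q t • ∑ i ∈ range n, S.P ^ (i + 1) * S.rZ * S.P ^ (n - 1 - i) := by
  rw [comm_pow _ _ _ S.rD_P n, sub_eq_add_neg, Finset.smul_sum, ← Finset.sum_neg_distrib]
  congr 1
  apply Finset.sum_congr rfl
  intro i hi
  rw [mul_neg, neg_mul, mul_smul_comm, smul_mul_assoc, ← mul_assoc, ← pow_succ]

theorem D_phi (u : Module.End K V1) : S.D * S.phi u = S.phi (S.rD * u) := by
  ext v
  exact S.D_d _

theorem phi_D (u : Module.End K V1) : S.phi u * S.D = S.phi (u * S.rD) := by
  ext v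
  change S.d (u (S.io (S.d (S.io v)))) = S.d (u (S.DD (S.io v)))
  rw [S.DD_io]

theorem E_phi (u : Module.End K V1) : S.E * S.phi u = S.phi (S.rE * u) := by
  ext v
  exact S.E_d _

theorem phi_E (u : Module.End K V1) : S.phi u * S.E = S.phi (u * S.rE - MM q t • (u * S.ry)) := by
  ext v
  change S.d (u (S.io (S.E v))) = S.d (u (S.EE (S.io v)) - MM q t • (u (S.y (S.io v))))
  rw [S.io_E, map_sub, map_smul]

theorem Dp_phi (hM : MM q t ≠ 0) (u : Module.End K V1) : S.Dp * S.phi u = S.phi (S.rDp * u) := by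
  ext v
  exact S.Dp_dd hM _

theorem phi_Dp (hM : MM q t ≠ 0) (u : Module.End K V1) :
    S.phi u * S.Dp = S.phi (u * S.rDp - MM q t • (u * S.P)) := by
  ext v
  change S.d (u (S.io (S.Dp v))) = S.d (u (S.DDp (S.io v)) - MM q t • (u (S.y (S.Z (S.io v)))))
  rw [S.DDp_io hM, map_add, map_smul]
  congr 1
  module

/-- commutator with `D'` -/
theorem comm_Dp (hM : MM q t ≠ 0) (u w : Module.End K V1)
    (h : S.rDp * u = u * S.rDp - MM q t • (u * S.P) + MM q t • w) :
    S.Dp * S.phi u - S.phi u * S.Dp = MM q t • S.phi w := by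
  rw [S.Dp_phi hM, S.phi_Dp hM, h, phi_add, phi_smul]
  abel

/-- commutator with `E` -/
theorem comm_E (u w : Module.End K V1)
    (h : S.rE * u = u * S.rE - MM q t • (u * S.ry) + MM q t • w) :
    S.E * S.phi u - S.phi u * S.E = MM q t • S.phi w := by
  rw [S.E_phi, S.phi_E, h, phi_add, phi_smul]
  abel

/-- commutator with `D` -/
theorem comm_D (u w : Module.End K V1)
    (h : S.rD * u = u * S.rD - MM q t • w) :
    S.phi u * S.D - S.D * S.phi u = MM q t • S.phi w := by
  rw [S.D_phi, S.phi_D, h, phi_sub, phi_smul]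
  abel

end ring

/-- product rule -/
theorem phi_mul (S : Sys q t V0 V1) (u v : Module.End K V1) :
    S.phi u * S.phi (S.y * v) = S.phi (u * (S.Z * S.y - (q * t) • (S.y * S.Z)) * v) := by
  ext x
  change S.d (u (S.io (S.d (S.y (v (S.io x)))))) =
    S.d (u (S.Z (S.y (v (S.io x))) - (q * t) • S.y (S.Z (v (S.io x)))))
  rw [S.io_d_y]

/-- product rule, expanded -/
theorem phi_mul' (S : Sys q t V0 V1) (u v : Module.End K V1) :
    S.phi u * S.phi (S.ry * v) = S.phi (u * S.rZ * S.ry * v) - (q * t) • S.phi (u * S.P * v) := by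
  have h := S.phi_mul u v
  have h2 : u * (S.Z * S.y - (q * t) • (S.y * S.Z)) * v =
      u * S.rZ * S.ry * v - (q * t) • (u * S.P * v) := by
    rw [mul_sub, sub_mul, mul_smul_comm, smul_mul_assoc]
    rfl
  rw [h2, phi_sub, phi_smul] at h
  exact h

theorem R_succ (S : Sys q t V0 V1) (hM : MM q t ≠ 0) (j : ℕ) :
    S.Dp * S.R j - S.R j * S.Dp = MM q t • S.R (j + 1) := by
  unfold R
  apply S.comm_Dp hM
  rw [S.rDp_P_pow hM, pow_succ]
  abel

theorem L_succ (S : Sys q t V0 V1) (hM : MM q t ≠ 0) (l : ℕ) :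
    S.L l * S.Dp - S.Dp * S.L l = MM q t • S.L (l + 1) := by
  rcases l with _ | l
  · change S.E * S.phi S.ry - S.phi S.ry * S.E = MM q t • S.phi (S.ry * S.P ^ 0 * S.ry)
    apply S.comm_E
    rw [S.rE_y, pow_zero, mul_one]
    abel
  · have h : S.Dp * S.L (l + 1) - S.L (l + 1) * S.Dp = MM q t • S.phi (-(S.ry * S.P ^ (l + 1) * S.ry)) := by
      change S.Dp * S.phi (S.ry * S.P ^ l * S.ry) - S.phi (S.ry * S.P ^ l * S.ry) * S.Dp = _
      apply S.comm_Dp hM
      have e1 : S.rDp * (S.ry * S.P ^ l * S.ry) = S.rDp * S.ry * S.P ^ l * S.ry := by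
        simp only [mul_assoc]
      rw [e1, S.rDp_y hM, sub_mul, sub_mul, mul_assoc S.ry S.rDp, S.rDp_P_pow hM,
        ← mul_assoc S.ry, mul_assoc (S.ry * S.P ^ l), S.rDp_y hM, mul_sub, smul_mul_assoc,
        smul_mul_assoc, mul_smul_comm, pow_succ', smul_neg]
      simp only [mul_assoc]
      abel
    have h2 : S.L (l + 1 + 1) = S.phi (S.ry * S.P ^ (l + 1) * S.ry) := rfl
    have h3 : S.phi (-(S.ry * S.P ^ (l + 1) * S.ry)) = - S.L (l + 1 + 1) := by
      rw [h2, ← sub_zero (-(S.ry * S.P ^ (l + 1) * S.ry)), ← zero_sub, phi_sub, phi_sub, phi_zero]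
      abel
    rw [h3, smul_neg] at h
    rw [← neg_eq_iff_eq_neg, neg_sub] at h
    exact h

/-- commuting with `D'` -/
theorem Dp_comm_word (S : Sys q t V0 V1) (hM : MM q t ≠ 0) (i r : ℕ) :
    S.Dp * S.phi (S.P ^ i * S.ry * S.P ^ r) = S.phi (S.P ^ i * S.ry * S.P ^ r) * S.Dp := by
  have h := S.comm_Dp hM (S.P ^ i * S.ry * S.P ^ r) 0 (by
    have e1 : S.rDp * (S.P ^ i * S.ry * S.P ^ r) = S.rDp * S.P ^ i * S.ry * S.P ^ r := by
      simp only [mul_assoc]
    rw [e1, S.rDp_P_pow hM, mul_assoc (S.P ^ i), S.rDp_y hM, mul_sub, sub_mul, mul_assoc,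
      mul_assoc S.ry, S.rDp_P_pow hM, mul_smul_comm, smul_mul_assoc, smul_zero, add_zero]
    have e2 : S.P ^ r * S.P = S.P * S.P ^ r := (pow_succ _ _).symm.trans (pow_succ' _ _)
    simp only [mul_assoc, e2])
  rw [phi_zero, smul_zero, sub_eq_zero] at h
  exact h

theorem Dp_Qk (S : Sys q t V0 V1) (hM : MM q t ≠ 0) (k : ℕ) :
    S.Dp * S.Qk k = S.Qk k * S.Dp := by
  unfold Qk
  rw [phi_sum, Finset.mul_sum, Finset.sum_mul]
  apply Finset.sum_congr rfl
  intro i _
  exact S.Dp_comm_word hM i _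

theorem Dp_Ek (S : Sys q t V0 V1) (hM : MM q t ≠ 0) (k : ℕ) :
    S.Dp * S.Ek k = S.Ek k * S.Dp := by
  rcases k with _ | k
  · change S.Dp * 1 = 1 * S.Dp
    rw [mul_one, one_mul]
  · have h := S.Dp_comm_word hM k 0
    rw [pow_zero, mul_one] at h
    exact h

theorem L_R (S : Sys q t V0 V1) (hM : MM q t ≠ 0) (l j : ℕ) :
    S.L l * S.R j - S.R j * S.L l = MM q t • S.Qk (l + j + 1) := by
  induction l generalizing j with
  | zero =>
    change S.E * S.phi (S.P ^ j) - S.phi (S.P ^ j) * S.E = _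
    apply S.comm_E
    rw [S.rE_P_pow, Finset.sum_range_succ]
    have e1 : ∑ i ∈ range j, S.P ^ i * S.y * S.P ^ (0 + j + 1 - 1 - i) =
        ∑ i ∈ range j, S.P ^ i * S.ry * S.P ^ (j - i) := by
      apply Finset.sum_congr rfl
      intro i _
      congr 2
      omega
    have e2 : S.P ^ (0 + j) * S.y * S.P ^ (0 + j + 1 - 1 - (0 + j)) = S.P ^ j * S.ry := by
      have : 0 + j + 1 - 1 - (0 + j) = 0 := by omega
      rw [this, pow_zero, mul_one, zero_add]
      rfl
    rw [show (0 + j) = j from zero_add j] at e1 e2 ⊢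
    rw [e1, e2, smul_add]
    abel
  | succ l ih =>
    apply Sys.smul_cancel hM
    have h1 := S.L_succ hM l
    have h2 := S.R_succ hM j
    have h3 := ih j
    have h4 := ih (j + 1)
    have h5 := S.Dp_Qk hM (l + j + 1)
    have e1 : MM q t • (S.L (l + 1) * S.R j - S.R j * S.L (l + 1)) =
        (S.L l * S.Dp - S.Dp * S.L l) * S.R j - S.R j * (S.L l * S.Dp - S.Dp * S.L l) := by
      rw [h1, smul_mul_assoc, mul_smul_comm, smul_sub]
    have e2 : (S.L l * S.Dp - S.Dp * S.L l) * S.R j - S.R j * (S.L l * S.Dp - S.Dp * S.L l) =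
        (S.L l * (S.Dp * S.R j - S.R j * S.Dp) - (S.Dp * S.R j - S.R j * S.Dp) * S.L l) -
        (S.Dp * (S.L l * S.R j - S.R j * S.L l) - (S.L l * S.R j - S.R j * S.L l) * S.Dp) := by
      noncomm_ring
    rw [e1, e2, h2, h3, mul_smul_comm, smul_mul_assoc, mul_smul_comm, smul_mul_assoc, h5,
      sub_self, sub_zero, ← smul_sub, h4]
    congr 3
    ring

end Sys

end Pool.Agent.Lib.MP_0e7911_co_full
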