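import Pool.Agent.Lib.MP_0e7911_co_h88.B2a

/-! The commutation of `Q_m` and `E_k`. -/

set_option autoImplicit false

namespace Pool.Agent.Lib.MP_0e7911_co_full

open Finset

variable {K : Type*} [Field K] {q t : K} {V0 V1 : Type*} [AddCommGroup V0] [Module K V0]
    [AddCommGroup V1] [Module K V1]

/-- the numbers `1 + p + ... + p^(n-1)` -/
def gnum (p : K) (n : ℕ) : K := ∑ i ∈ range n, p ^ i

theorem gnum_succ (p : K) (n : ℕ) : gnum p (n + 1) = 1 + p * gnum p n := by
  unfold gnum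
  rw [Finset.sum_range_succ', Finset.mul_sum, pow_zero, add_comm]
  congr 1
  apply Finset.sum_congr rfl
  intro i _
  ring

theorem tele_aux {V : Type*} [AddCommGroup V] [Module K V] (p : K) (F : ℕ → V) (n : ℕ) :
    ∑ i ∈ range n, gnum p (i + 1) • (F i - p • F (i + 1)) + gnum p (n + 1) • F n =
      ∑ i ∈ range (n + 1), F i := by
  induction n with
  | zero => simp [gnum]
  | succ n ih =>
    rw [Finset.sum_range_succ _ (n + 1), ← ih, Finset.sum_range_succ, gnum_succ p (n + 1)]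
    module

theorem tele {V : Type*} [AddCommGroup V] [Module K V] (p : K) (F G : ℕ → V) (k : ℕ)
    (h1 : ∀ i, i + 1 < k → G i = F i - p • F (i + 1)) (h2 : ∀ i, i + 1 = k → G i = F i) :
    ∑ i ∈ range k, gnum p (i + 1) • G i = ∑ i ∈ range k, F i := by
  rcases k with _ | n
  · simp
  · rw [← tele_aux p F n, Finset.sum_range_succ, h2 n rfl]
    congr 1
    apply Finset.sum_congr rfl
    intro i hi
    rw [Finset.mem_range] at hi
    rw [h1 i (by omega)]

namespace Sys

/-- the words `P^i Z P^(l-1) y`, `P^i` -/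
def aw (S : Sys q t V0 V1) (i : ℕ) : ℕ → Module.End K V1
  | 0 => S.P ^ i
  | l + 1 => S.P ^ i * S.rZ * S.P ^ l * S.ry

theorem aw_zero (S : Sys q t V0 V1) (i : ℕ) : S.aw i 0 = S.P ^ i := rfl

theorem aw_succ (S : Sys q t V0 V1) (i l : ℕ) :
    S.aw i (l + 1) = S.P ^ i * S.rZ * S.P ^ l * S.ry := rfl

theorem R_Ek (S : Sys q t V0 V1) (j k : ℕ) :
    S.R j * S.Ek (k + 1) = S.phi (S.aw j (k + 1)) - (q * t) • S.phi (S.aw (j + 1) k) := by
  rcases k with _ | k
  · change S.phi (S.P ^ j) * S.phi (S.P ^ 0 * S.ry) = _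
    have e1 : S.P ^ 0 * S.ry = S.ry * 1 := by rw [pow_zero, one_mul, mul_one]
    rw [e1, phi_mul', aw_succ, aw_zero, mul_one, mul_one, pow_zero, mul_one, pow_succ]
  · change S.phi (S.P ^ j) * S.phi (S.P ^ (k + 1) * S.ry) = _
    have e1 : S.P ^ (k + 1) * S.ry = S.ry * (S.rZ * S.P ^ k * S.ry) := by
      rw [pow_succ', P_eq]
      simp only [mul_assoc]
    have e2 : S.P ^ j * S.rZ * S.ry * (S.rZ * S.P ^ k * S.ry) =
        S.P ^ j * S.rZ * S.P ^ (k + 1) * S.ry := by
      rw [pow_succ' S.P k, P_eq]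
      simp only [mul_assoc]
    have e3 : S.P ^ j * S.P * (S.rZ * S.P ^ k * S.ry) =
        S.P ^ (j + 1) * S.rZ * S.P ^ k * S.ry := by
      rw [pow_succ S.P j]
      simp only [mul_assoc]
    rw [e1, phi_mul', aw_succ, aw_succ, e2, e3]

theorem Ek_D (S : Sys q t V0 V1) (k : ℕ) :
    S.Ek k * S.R 0 - S.R 0 * S.Ek k =
      MM q t • ∑ i ∈ range k, S.phi (S.aw (i + 1) (k - 1 - i)) := by
  have hR : S.R 0 = S.D := by
    unfold R
    rw [pow_zero]
    rfl
  rw [hR]
  rcases k with _ | k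
  · change 1 * S.D - S.D * 1 = _
    simp
  · rw [← phi_sum]
    change S.phi (S.P ^ k * S.ry) * S.D - S.D * S.phi (S.P ^ k * S.ry) = _
    apply S.comm_D
    rw [← mul_assoc, S.rD_P_pow, sub_mul, mul_assoc, S.rD_y, mul_sub, smul_mul_assoc,
      mul_smul_comm, Finset.sum_mul, Finset.sum_range_succ]
    have e1 : ∑ i ∈ range k, S.aw (i + 1) (k + 1 - 1 - i) =
        ∑ i ∈ range k, S.P ^ (i + 1) * S.rZ * S.P ^ (k - 1 - i) * S.ry := by
      apply Finset.sum_congr rfl
      intro i hi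
      rw [Finset.mem_range] at hi
      have : k + 1 - 1 - i = (k - 1 - i) + 1 := by omega
      rw [this]
      rfl
    have e2 : S.aw (k + 1) (k + 1 - 1 - k) = S.P ^ k * S.P := by
      have : k + 1 - 1 - k = 0 := by omega
      rw [this, ← pow_succ]
      rfl
    rw [e1, e2, smul_add]
    simp only [mul_assoc]
    abel

theorem Dp_aw (S : Sys q t V0 V1) (hM : MM q t ≠ 0) (i l : ℕ) :
    S.Dp * S.phi (S.aw i l) - S.phi (S.aw i l) * S.Dp = MM q t • S.phi (S.aw (i + 1) l) := by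
  rcases l with _ | l
  · exact S.R_succ hM i
  · apply S.comm_Dp hM
    unfold aw
    have e1 : S.rDp * (S.P ^ i * S.rZ * S.P ^ l * S.ry) =
        (S.rDp * S.P ^ i) * S.rZ * S.P ^ l * S.ry := by
      simp only [mul_assoc]
    rw [e1, S.rDp_P_pow hM, mul_assoc (S.P ^ i), S.rDp_Z hM, mul_add, add_mul, add_mul,
      mul_smul_comm, smul_mul_assoc, smul_mul_assoc]
    have e2 : S.P ^ i * (S.rZ * S.rDp) * S.P ^ l * S.ry =
        S.P ^ i * S.rZ * S.P ^ l * S.ry * S.rDp -
          MM q t • (S.P ^ i * S.rZ * S.P ^ l * S.ry * S.P) := by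
      have e3 : S.P ^ i * (S.rZ * S.rDp) * S.P ^ l * S.ry =
          S.P ^ i * S.rZ * (S.rDp * S.P ^ l) * S.ry := by
        simp only [mul_assoc]
      rw [e3, S.rDp_P_pow hM]
      have e4 : S.P ^ i * S.rZ * (S.P ^ l * S.rDp) * S.ry =
          S.P ^ i * S.rZ * S.P ^ l * (S.rDp * S.ry) := by
        simp only [mul_assoc]
      rw [e4, S.rDp_y hM, mul_sub, mul_smul_comm]
      simp only [mul_assoc]
    rw [e2, pow_succ]
    simp only [mul_assoc]

theorem Ek_R (S : Sys q t V0 V1) (hM : MM q t ≠ 0) (k j : ℕ) :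
    S.Ek k * S.R j - S.R j * S.Ek k =
      MM q t • ∑ i ∈ range k, S.phi (S.aw (j + i + 1) (k - 1 - i)) := by
  induction j with
  | zero =>
    rw [S.Ek_D]
    simp only [zero_add]
  | succ j ih =>
    apply Sys.smul_cancel hM
    have e1 : MM q t • (S.Ek k * S.R (j + 1) - S.R (j + 1) * S.Ek k) =
        S.Ek k * (S.Dp * S.R j - S.R j * S.Dp) - (S.Dp * S.R j - S.R j * S.Dp) * S.Ek k := by
      rw [S.R_succ hM, mul_smul_comm, smul_mul_assoc, smul_sub]
    have e2 : S.Ek k * (S.Dp * S.R j - S.R j * S.Dp) - (S.Dp * S.R j - S.R j * S.Dp) * S.Ek k =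
        S.Dp * (S.Ek k * S.R j - S.R j * S.Ek k) - (S.Ek k * S.R j - S.R j * S.Ek k) * S.Dp +
        (S.Ek k * S.Dp - S.Dp * S.Ek k) * S.R j - S.R j * (S.Ek k * S.Dp - S.Dp * S.Ek k) := by
      noncomm_ring
    rw [e1, e2, S.Dp_Ek hM, sub_self, zero_mul, mul_zero, sub_zero, add_zero, ih, mul_smul_comm,
      smul_mul_assoc, ← smul_sub, Finset.mul_sum, Finset.sum_mul, ← Finset.sum_sub_distrib]
    congr 1
    rw [Finset.smul_sum]
    apply Finset.sum_congr rfl
    intro i _
    rw [S.Dp_aw hM]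
    congr 3
    ring

/-- the numbers `1, M [1], M [2], ...` -/
def fnum (q t : K) : ℕ → K
  | 0 => 1
  | n + 1 => MM q t * gnum (q * t) (n + 1)

theorem ER (S : Sys q t V0 V1) (hM : MM q t ≠ 0) (k j : ℕ) :
    S.Ek k * S.R j = ∑ i ∈ range (k + 1), fnum q t i • (S.R (j + i) * S.Ek (k - i)) := by
  have h := S.Ek_R hM k j
  have h2 := tele (q * t) (fun i => S.phi (S.aw (j + i + 1) (k - 1 - i)))
    (fun i => S.R (j + i + 1) * S.Ek (k - 1 - i)) k (by
      intro i hi
      have : k - 1 - i = (k - 1 - (i + 1)) + 1 := by omega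
      rw [this, S.R_Ek]
      rfl) (by
      intro i hi
      have : k - 1 - i = 0 := by omega
      rw [this]
      change S.R (j + i + 1) * 1 = S.R (j + i + 1)
      rw [mul_one])
  rw [← h2, Finset.smul_sum] at h
  rw [Finset.sum_range_succ']
  have e1 : ∑ i ∈ range k, fnum q t (i + 1) • (S.R (j + (i + 1)) * S.Ek (k - (i + 1))) =
      ∑ i ∈ range k, MM q t • gnum (q * t) (i + 1) • (S.R (j + i + 1) * S.Ek (k - 1 - i)) := by
    apply Finset.sum_congr rfl
    intro i _
    rw [smul_smul]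
    have : k - (i + 1) = k - 1 - i := by omega
    rw [this]
    rfl
  rw [e1, ← h]
  change _ = S.Ek k * S.R j - S.R j * S.Ek k + (1 : K) • (S.R (j + 0) * S.Ek (k - 0))
  rw [one_smul, add_zero, Nat.sub_zero]
  abel

theorem Ek_L (S : Sys q t V0 V1) (k l : ℕ) :
    S.Ek (k + 1) * S.L (l + 1) =
      S.phi (S.P ^ (k + 1) * S.ry * S.P ^ l * S.ry) -
        (q * t) • S.phi (S.P ^ k * S.ry * S.P ^ (l + 1) * S.ry) := by
  change S.phi (S.P ^ k * S.ry) * S.phi (S.ry * S.P ^ l * S.ry) = _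
  have e2 : S.P ^ k * S.ry * S.rZ * S.ry * (S.P ^ l * S.ry) =
      S.P ^ (k + 1) * S.ry * S.P ^ l * S.ry := by
    rw [pow_succ S.P k, P_eq]
    simp only [mul_assoc]
  have e3 : S.P ^ k * S.ry * S.P * (S.P ^ l * S.ry) =
      S.P ^ k * S.ry * S.P ^ (l + 1) * S.ry := by
    rw [pow_succ' S.P l]
    simp only [mul_assoc]
  rw [mul_assoc S.ry, phi_mul', e2, e3]

theorem E_Ek (S : Sys q t V0 V1) (k : ℕ) :
    S.E * S.Ek k - S.Ek k * S.E =
      MM q t • ∑ i ∈ range k, S.phi (S.P ^ (k - 1 - i) * S.ry * S.P ^ i * S.ry) := by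
  rcases k with _ | k
  · change S.E * 1 - 1 * S.E = _
    simp
  · rw [← Finset.sum_range_reflect, ← phi_sum]
    change S.E * S.phi (S.P ^ k * S.ry) - S.phi (S.P ^ k * S.ry) * S.E = _
    apply S.comm_E
    rw [← mul_assoc, S.rE_P_pow, add_mul, mul_assoc, S.rE_y, smul_mul_assoc, Finset.sum_mul,
      Finset.sum_range_succ]
    have e1 : ∑ i ∈ range k, S.P ^ (k + 1 - 1 - (k + 1 - 1 - i)) * S.ry *
        S.P ^ (k + 1 - 1 - i) * S.ry =
        ∑ i ∈ range k, S.P ^ i * S.ry * S.P ^ (k - i) * S.ry := by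
      apply Finset.sum_congr rfl
      intro i hi
      rw [Finset.mem_range] at hi
      congr 3
      · congr 2
        omega
    have e2 : S.P ^ (k + 1 - 1 - (k + 1 - 1 - k)) * S.ry * S.P ^ (k + 1 - 1 - k) * S.ry =
        S.P ^ k * S.ry * S.ry := by
      have h1 : k + 1 - 1 - (k + 1 - 1 - k) = k := by omega
      have h2 : k + 1 - 1 - k = 0 := by omega
      rw [h1, h2, pow_zero, mul_one]
    rw [e1, e2, smul_add]
    simp only [mul_assoc]
    abel

theorem EL (S : Sys q t V0 V1) (k : ℕ) :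
    S.E * S.Ek k = ∑ i ∈ range (k + 1), fnum q t i • (S.Ek (k - i) * S.L i) := by
  have h := S.E_Ek k
  have h2 := tele (q * t) (fun i => S.phi (S.P ^ (k - 1 - i) * S.ry * S.P ^ i * S.ry))
    (fun i => S.Ek (k - 1 - i) * S.L (i + 1)) k (by
      intro i hi
      have : k - 1 - i = (k - 1 - (i + 1)) + 1 := by omega
      rw [this, S.Ek_L]) (by
      intro i hi
      have : k - 1 - i = 0 := by omega
      rw [this, pow_zero, one_mul]
      change 1 * S.L (i + 1) = S.L (i + 1)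
      rw [one_mul])
  rw [← h2, Finset.smul_sum] at h
  rw [Finset.sum_range_succ']
  have e1 : ∑ i ∈ range k, fnum q t (i + 1) • (S.Ek (k - (i + 1)) * S.L (i + 1)) =
      ∑ i ∈ range k, MM q t • gnum (q * t) (i + 1) • (S.Ek (k - 1 - i) * S.L (i + 1)) := by
    apply Finset.sum_congr rfl
    intro i _
    rw [smul_smul]
    have : k - (i + 1) = k - 1 - i := by omega
    rw [this]
    rfl
  rw [e1, ← h]
  change _ = S.E * S.Ek k - S.Ek k * S.E + (1 : K) • (S.Ek (k - 0) * S.E)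
  rw [one_smul, Nat.sub_zero]
  abel

theorem comm_sum (S : Sys q t V0 V1) (hM : MM q t ≠ 0) (j k : ℕ) :
    ∑ i ∈ range (k + 1), fnum q t i •
      (S.Qk (j + i + 1) * S.Ek (k - i) - S.Ek (k - i) * S.Qk (j + i + 1)) = 0 := by
  -- the two evaluations of `E E_k R_j`
  have h1 : ∑ i ∈ range (k + 1), fnum q t i • (S.E * S.R (j + i) * S.Ek (k - i)) =
      ∑ i ∈ range (k + 1), fnum q t i • (S.Ek (k - i) * S.L i * S.R j) := by
    have e1 : S.E * (S.Ek k * S.R j) = (S.E * S.Ek k) * S.R j := (mul_assoc _ _ _).symm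
    rw [S.ER hM, S.EL, Finset.mul_sum, Finset.sum_mul] at e1
    simpa only [mul_smul_comm, smul_mul_assoc, mul_assoc] using e1
  have h2 : ∑ i ∈ range (k + 1), fnum q t i • (S.R (j + i) * (S.E * S.Ek (k - i))) =
      ∑ i ∈ range (k + 1), fnum q t i • ((S.Ek (k - i) * S.R j) * S.L i) := by
    simp only [S.EL, S.ER hM, Finset.mul_sum, Finset.sum_mul, Finset.smul_sum]
    rw [Finset.sum_comm' (t' := range (k + 1)) (s' := fun y => range (k - y + 1))]
    · apply Finset.sum_congr rfl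
      intro i _
      apply Finset.sum_congr rfl
      intro i' _
      have : k - i' - i = k - i - i' := by omega
      rw [this]
      simp only [mul_smul_comm, smul_mul_assoc, smul_smul, mul_assoc]
      rw [mul_comm (fnum q t i')]
    · intro x y
      simp only [Finset.mem_range]
      omega
  have h3 : ∑ i ∈ range (k + 1), fnum q t i •
      ((S.E * S.R (j + i) - S.R (j + i) * S.E) * S.Ek (k - i)) =
      ∑ i ∈ range (k + 1), fnum q t i • (S.Ek (k - i) * (S.L i * S.R j - S.R j * S.L i)) := by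
    simp only [sub_mul, mul_sub, smul_sub, Finset.sum_sub_distrib]
    rw [← sub_eq_zero]
    rw [← sub_eq_zero] at h1 h2
    simp only [mul_assoc] at h1 h2 ⊢
    rw [sub_sub_sub_comm, h1, h2, sub_zero]
  apply Sys.smul_cancel hM
  rw [smul_zero, Finset.smul_sum]
  rw [← sub_eq_zero, ← Finset.sum_sub_distrib] at h3
  rw [← h3]
  apply Finset.sum_congr rfl
  intro i _
  have e1 : S.E * S.R (j + i) - S.R (j + i) * S.E = MM q t • S.Qk (j + i + 1) := by
    have := S.L_R hM 0 (j + i)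
    rw [zero_add] at this
    exact this
  have e2 : S.L i * S.R j - S.R j * S.L i = MM q t • S.Qk (j + i + 1) := by
    rw [S.L_R hM i j, Nat.add_comm i j]
  rw [e1, e2, smul_mul_assoc, mul_smul_comm, ← smul_sub, ← smul_sub, smul_comm]

theorem comm_QE (S : Sys q t V0 V1) (hM : MM q t ≠ 0) (m k : ℕ) :
    S.Qk m * S.Ek k = S.Ek k * S.Qk m := by
  rcases m with _ | m
  · have : S.Qk 0 = 0 := by
      unfold Qk
      rw [Finset.range_zero, Finset.sum_empty, phi_zero]
    rw [this, zero_mul, mul_zero]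
  · induction k using Nat.strong_induction_on generalizing m with
    | _ k ih =>
      have h := S.comm_sum hM m k
      rw [Finset.sum_range_succ', Finset.sum_eq_zero, zero_add] at h
      · change (1 : K) • (S.Qk (m + 0 + 1) * S.Ek (k - 0) - S.Ek (k - 0) * S.Qk (m + 0 + 1)) = 0 at h
        rw [one_smul, sub_eq_zero] at h
        exact h
      · intro i hi
        rw [Finset.mem_range] at hi
        rw [ih (k - (i + 1)) (by omega) (m + (i + 1)), sub_self, smul_zero]

end Sys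

end Pool.Agent.Lib.MP_0e7911_co_full
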