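import Pool.Agent.Lib.MP_0e7911_co_h88.Mac2
import Pool.Agent.Lib.MP_0e7911_co_h31.Dom

/-! The `h`'s are combinations of the Schur functions of larger diagrams. -/

set_option autoImplicit false

namespace Pool.Agent.Lib.MP_0e7911_co_full

open Finset Pool.Agent.Lib.MP_0e7911_co_h56 Pool.Agent.Lib.MP_0e7911_co_h31

variable {K : Type*} [Field K]

theorem exists_first {n : ℕ} (σ : Equiv.Perm (Fin n)) (hσ : σ ≠ 1) :
    ∃ i : Fin n, (∀ j < i, σ j = j) ∧ i < σ i := by
  have h1 : ∃ i : Fin n, σ i ≠ i := by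
    by_contra h
    push Not at h
    exact hσ (Equiv.ext h)
  have h2 := WellFounded.has_min (wellFounded_lt (α := Fin n)) {i | σ i ≠ i} h1
  obtain ⟨i, hi, hmin⟩ := h2
  have h3 : ∀ j < i, σ j = j := by
    intro j hj
    by_contra h
    exact hmin j h hj
  refine ⟨i, h3, ?_⟩
  rcases lt_trichotomy i (σ i) with h | h | h
  · exact h
  · exact absurd h.symm hi
  · exact absurd (σ.injective (h3 _ h)) hi

theorem perm_sum_gt {n : ℕ} (σ : Equiv.Perm (Fin n)) (i : Fin n) (h1 : ∀ j < i, σ j = j)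
    (h2 : i < σ i) :
    ∑ j ∈ univ.filter (fun j : Fin n => (j : ℕ) < (i : ℕ) + 1), (j : ℕ) <
      ∑ j ∈ univ.filter (fun j : Fin n => (j : ℕ) < (i : ℕ) + 1), (σ j : ℕ) := by
  apply Finset.sum_lt_sum
  · intro j hj
    simp only [Finset.mem_filter, Finset.mem_univ, true_and] at hj
    rcases Nat.lt_or_ge (j : ℕ) i with h | h
    · rw [h1 j h]
    · have : j = i := Fin.ext (by omega)
      rw [this]
      exact le_of_lt h2
  · refine ⟨i, by simp, h2⟩

/-- the terms of the Jacobi-Trudi determinant -/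
theorem term_cases (l : YoungDiagram) (σ : Equiv.Perm (Fin (l.colLen 0))) :
    (∏ i, homogZ K ((l.rowLen (i : Fin (l.colLen 0)) : ℤ) - (i : ℕ) + (σ i : ℕ)) = 0) ∨
    ∃ nu : YoungDiagram, dom nu l ∧ (σ ≠ 1 → nu ≠ l) ∧
      ∏ i, homogZ K ((l.rowLen (i : Fin (l.colLen 0)) : ℤ) - (i : ℕ) + (σ i : ℕ)) =
        hl K nu.rowLens := by
  by_cases h : ∀ i : Fin (l.colLen 0), 0 ≤ (l.rowLen i : ℤ) - (i : ℕ) + (σ i : ℕ)
  · right
    have hprod : ∏ i, homogZ K ((l.rowLen (i : Fin (l.colLen 0)) : ℤ) - (i : ℕ) + (σ i : ℕ)) =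
        hl K (List.ofFn (fun i : Fin (l.colLen 0) =>
          ((l.rowLen i : ℤ) - (i : ℕ) + (σ i : ℕ)).toNat)) := by
      unfold hl
      rw [List.map_ofFn, List.prod_ofFn]
      apply Finset.prod_congr rfl
      intro i _
      unfold homogZ
      rw [if_neg (not_lt.mpr (h i))]
      rfl
    obtain ⟨nu, h1, h2, h3⟩ := exists_diag (K := K) (List.ofFn (fun i : Fin (l.colLen 0) =>
          ((l.rowLen i : ℤ) - (i : ℕ) + (σ i : ℕ)).toNat))
    have e3 : ∀ i : Fin (l.colLen 0),
        (((l.rowLen i : ℤ) - (i : ℕ) + (σ i : ℕ)).toNat : ℤ) =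
        (l.rowLen i : ℤ) - (i : ℕ) + (σ i : ℕ) := fun i => Int.toNat_of_nonneg (h i)
    have h4 : ∀ k, (∑ j ∈ univ.filter (fun j : Fin (l.colLen 0) => (j : ℕ) < k), (l.rowLen j : ℤ)) -
        (∑ j ∈ univ.filter (fun j : Fin (l.colLen 0) => (j : ℕ) < k), ((j : ℕ) : ℤ)) +
        (∑ j ∈ univ.filter (fun j : Fin (l.colLen 0) => (j : ℕ) < k), ((σ j : ℕ) : ℤ)) ≤
        ((∑ i ∈ range k, nu.rowLen i : ℕ) : ℤ) := by
      intro k
      have h5 := h2 k
      rw [List.sum_take_ofFn] at h5
      have h6 := (Nat.cast_le (α := ℤ)).mpr h5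
      rw [Nat.cast_sum, Finset.sum_congr rfl (fun i _ => e3 i), Finset.sum_add_distrib,
        Finset.sum_sub_distrib] at h6
      exact h6
    refine ⟨nu, ⟨?_, ?_⟩, ?_, by rw [hprod, h3]⟩
    · rw [h1, List.sum_ofFn]
      have e1 : (∑ i : Fin (l.colLen 0), ((l.rowLen i : ℤ) - (i : ℕ) + (σ i : ℕ)).toNat : ℕ) =
          ∑ i : Fin (l.colLen 0), l.rowLen i := by
        have e2 : ((∑ i : Fin (l.colLen 0),
            ((l.rowLen i : ℤ) - (i : ℕ) + (σ i : ℕ)).toNat : ℕ) : ℤ) =
            ((∑ i : Fin (l.colLen 0), l.rowLen i : ℕ) : ℤ) := by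
          push_cast
          rw [Finset.sum_congr rfl (fun i _ => e3 i), Finset.sum_add_distrib,
            Finset.sum_sub_distrib, Equiv.sum_comp σ (fun i => ((i : ℕ) : ℤ))]
          ring
        exact_mod_cast e2
      rw [e1]
      have e4 := sum_cells l (fun _ => 1)
      rw [Finset.sum_const, smul_eq_mul, mul_one] at e4
      change _ = l.cells.card
      rw [e4, Finset.sum_range]
      simp
    · intro k
      have h6 := h4 k
      have e5 := (Nat.cast_le (α := ℤ)).mpr (perm_sum_ge σ k)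
      have e6 := congrArg (Nat.cast (R := ℤ)) (sum_rowLen_range l k)
      rw [Nat.cast_sum] at e6
      rw [Nat.cast_sum, Nat.cast_sum] at e5
      rw [← Nat.cast_le (α := ℤ)]
      linarith
    · intro hσ hnu
      obtain ⟨i, hi1, hi2⟩ := exists_first σ hσ
      have h6 := h4 ((i : ℕ) + 1)
      have e5 := (Nat.cast_lt (α := ℤ)).mpr (perm_sum_gt σ i hi1 hi2)
      have e6 := congrArg (Nat.cast (R := ℤ)) (sum_rowLen_range l ((i : ℕ) + 1))
      rw [Nat.cast_sum] at e6
      rw [Nat.cast_sum, Nat.cast_sum] at e5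
      rw [hnu] at h6
      linarith
  · left
    push Not at h
    obtain ⟨i, hi⟩ := h
    rw [Finset.prod_eq_zero (Finset.mem_univ i)]
    unfold homogZ
    rw [if_pos hi]

theorem term_one (l : YoungDiagram) :
    ∏ i, homogZ K ((l.rowLen (i : Fin (l.colLen 0)) : ℤ) - (i : ℕ) +
      (((1 : Equiv.Perm (Fin (l.colLen 0))) i : Fin (l.colLen 0)) : ℕ)) = hl K l.rowLens := by
  unfold hl
  rw [YoungDiagram.rowLens, List.map_map, ← List.prod_toFinset _ List.nodup_range,
    List.toFinset_range, Finset.prod_range]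
  apply Finset.prod_congr rfl
  intro i _
  unfold homogZ
  rw [Equiv.Perm.one_apply, sub_add_cancel, if_neg (by simp)]
  simp

theorem schur_expand (l : YoungDiagram) : schur K l = ∑ σ : Equiv.Perm (Fin (l.colLen 0)),
    Equiv.Perm.sign σ •
      ∏ i, homogZ K ((l.rowLen (i : Fin (l.colLen 0)) : ℤ) - (i : ℕ) + (σ i : ℕ)) := by
  have h1 : schur K l = (Matrix.of (fun i j : Fin (l.colLen 0) =>
      homogZ K ((l.rowLen i : ℤ) - (i : ℕ) + (j : ℕ)))).det := rfl
  rw [h1, ← Matrix.det_transpose, Matrix.det_apply]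
  rfl

/-- `h_l` is a combination of the Schur functions of the diagrams `≥ l` -/
theorem hd_mem_schur (l : YoungDiagram) :
    hl K l.rowLens ∈ Submodule.span K {s | ∃ nu, dom nu l ∧ s = schur K nu} := by
  induction h : ((diag l.card).sup drank - drank l) using Nat.strong_induction_on
    generalizing l with
  | _ N ih =>
    have h0 := schur_expand (K := K) l
    rw [← Finset.add_sum_erase Finset.univ _ (Finset.mem_univ (1 : Equiv.Perm (Fin (l.colLen 0)))),
      term_one, Equiv.Perm.sign_one, one_smul] at h0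
    have h00 := eq_sub_of_add_eq h0.symm
    rw [h00]
    apply Submodule.sub_mem
    · exact Submodule.subset_span ⟨l, dom_refl l, rfl⟩
    · apply Submodule.sum_mem
      intro σ hσ
      have hσ1 : σ ≠ 1 := Finset.ne_of_mem_erase hσ
      have key : ∏ i, homogZ K ((l.rowLen (i : Fin (l.colLen 0)) : ℤ) - (i : ℕ) + (σ i : ℕ)) ∈
          Submodule.span K {s | ∃ nu, dom nu l ∧ s = schur K nu} := by
        rcases term_cases (K := K) l σ with h1 | ⟨nu, h1, h2, h3⟩
        · rw [h1]
          exact Submodule.zero_mem _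
        · rw [h3]
          have hlt := drank_lt h1 (h2 hσ1)
          have hcard : nu.card = l.card := h1.1
          have hle : drank nu ≤ (diag l.card).sup drank :=
            Finset.le_sup (f := drank) (mem_diag.mpr hcard)
          have h4 := ih ((diag nu.card).sup drank - drank nu) (by rw [hcard]; omega) nu rfl
          refine Submodule.span_mono ?_ h4
          rintro s ⟨nu', h5, rfl⟩
          exact ⟨nu', dom_trans h5 h1, rfl⟩
      rcases Int.units_eq_one_or (Equiv.Perm.sign σ) with hs | hs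
      · rw [hs, one_smul]
        exact key
      · rw [hs, Units.neg_smul, one_smul]
        exact Submodule.neg_mem _ key

end Pool.Agent.Lib.MP_0e7911_co_full
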