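import Pool.Agent.Lib.MP_0e7911_co_h88.Mac1

/-! Schur functions are combinations of the `h`'s of larger diagrams. -/

set_option autoImplicit false

namespace Pool.Agent.Lib.MP_0e7911_co_full

open Finset Pool.Agent.Lib.MP_0e7911_co_h56

variable {K : Type*} [Field K]

theorem sum_range_le_sum (S : Finset ℕ) : ∑ i ∈ range S.card, i ≤ ∑ i ∈ S, i := by
  induction h : S.card generalizing S with
  | zero => simp
  | succ k ih =>
    have hne : S.Nonempty := by
      rw [← Finset.card_pos]
      omega
    have hmem := S.max'_mem hne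
    have hm : k ≤ S.max' hne := by
      have h1 : S ⊆ range (S.max' hne + 1) := by
        intro x hx
        rw [Finset.mem_range]
        exact Nat.lt_succ_of_le (S.le_max' x hx)
      have h2 := Finset.card_le_card h1
      rw [Finset.card_range, h] at h2
      omega
    have h3 := ih (S.erase (S.max' hne)) (by rw [Finset.card_erase_of_mem hmem, h]; rfl)
    rw [← Finset.add_sum_erase _ _ hmem, Finset.sum_range_succ]
    omega

theorem filter_fin_sum {n : ℕ} (k : ℕ) (f : ℕ → ℕ) :
    ∑ j ∈ univ.filter (fun j : Fin n => (j : ℕ) < k), f j = ∑ i ∈ range (min n k), f i := by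
  apply Finset.sum_bij (fun (j : Fin n) _ => (j : ℕ))
  · intro j hj
    simp only [Finset.mem_filter, Finset.mem_univ, true_and] at hj
    rw [Finset.mem_range]
    omega
  · intro a _ b _ h
    exact Fin.ext h
  · intro b hb
    rw [Finset.mem_range] at hb
    exact ⟨⟨b, by omega⟩, by simp only [Finset.mem_filter, Finset.mem_univ, true_and]; omega, rfl⟩
  · intro j _
    rfl

theorem perm_sum_ge {n : ℕ} (σ : Equiv.Perm (Fin n)) (k : ℕ) :
    ∑ j ∈ univ.filter (fun j : Fin n => (j : ℕ) < k), (j : ℕ) ≤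
      ∑ j ∈ univ.filter (fun j : Fin n => (j : ℕ) < k), (σ j : ℕ) := by
  have h1 := filter_fin_sum (n := n) k (fun i => i)
  have h2 : (univ.filter (fun j : Fin n => (j : ℕ) < k)).card = min n k := by
    have := filter_fin_sum (n := n) k (fun _ => 1)
    simpa using this
  have hinj : Set.InjOn (fun j : Fin n => (σ j : ℕ))
      (univ.filter (fun j : Fin n => (j : ℕ) < k) : Finset (Fin n)) := by
    intro a _ b _ h
    exact σ.injective (Fin.ext h)
  have h3 := sum_range_le_sum ((univ.filter (fun j : Fin n => (j : ℕ) < k)).image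
    (fun j : Fin n => (σ j : ℕ)))
  rw [Finset.card_image_of_injOn hinj, h2, Finset.sum_image (fun a ha b hb h => hinj ha hb h)] at h3
  rw [h1]
  exact h3

theorem sum_rowLen_range (l : YoungDiagram) (k : ℕ) :
    ∑ j ∈ univ.filter (fun j : Fin (l.colLen 0) => (j : ℕ) < k), l.rowLen j =
      ∑ i ∈ range k, l.rowLen i := by
  rw [filter_fin_sum k (fun i => l.rowLen i)]
  apply Finset.sum_subset
  · intro i
    rw [Finset.mem_range, Finset.mem_range]
    omega
  · intro i hi1 hi2
    rw [Finset.mem_range] at hi1 hi2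
    by_contra h
    have h3 : (i, 0) ∈ l := YoungDiagram.mem_iff_lt_rowLen.mpr (Nat.pos_of_ne_zero h)
    rw [YoungDiagram.mem_iff_lt_colLen] at h3
    omega

theorem schur_mem (l : YoungDiagram) :
    schur K l ∈ Submodule.span K {s | ∃ nu, dom nu l ∧ s = hl K nu.rowLens} := by
  have h0 : schur K l = ∑ σ : Equiv.Perm (Fin (l.colLen 0)), Equiv.Perm.sign σ •
      ∏ i, homogZ K ((l.rowLen (i : Fin (l.colLen 0)) : ℤ) - (i : ℕ) + (σ i : ℕ)) := by
    have h1 : schur K l = (Matrix.of (fun i j : Fin (l.colLen 0) =>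
        homogZ K ((l.rowLen i : ℤ) - (i : ℕ) + (j : ℕ)))).det := rfl
    rw [h1, ← Matrix.det_transpose, Matrix.det_apply]
    rfl
  rw [h0]
  apply sum_mem
  intro σ _
  have key : ∏ i, homogZ K ((l.rowLen (i : Fin (l.colLen 0)) : ℤ) - (i : ℕ) + (σ i : ℕ)) ∈
      Submodule.span K {s | ∃ nu, dom nu l ∧ s = hl K nu.rowLens} := by
    by_cases h : ∀ i : Fin (l.colLen 0), 0 ≤ (l.rowLen i : ℤ) - (i : ℕ) + (σ i : ℕ)
    · have hprod : ∏ i, homogZ K ((l.rowLen (i : Fin (l.colLen 0)) : ℤ) - (i : ℕ) + (σ i : ℕ)) =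
          hl K (List.ofFn (fun i : Fin (l.colLen 0) =>
            ((l.rowLen i : ℤ) - (i : ℕ) + (σ i : ℕ)).toNat)) := by
        unfold hl
        rw [List.map_ofFn, List.prod_ofFn]
        apply Finset.prod_congr rfl
        intro i _
        unfold homogZ
        rw [if_neg (not_lt.mpr (h i))]
        rfl
      obtain ⟨nu, h1, h2, h3⟩ := exists_diag (K := K) (List.ofFn (fun i : Fin (l.colLen 0) =>
            ((l.rowLen i : ℤ) - (i : ℕ) + (σ i : ℕ)).toNat))
      rw [hprod, h3]
      apply Submodule.subset_span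
      refine ⟨nu, ⟨?_, ?_⟩, rfl⟩
      · rw [h1, List.sum_ofFn]
        have e1 : (∑ i : Fin (l.colLen 0), ((l.rowLen i : ℤ) - (i : ℕ) + (σ i : ℕ)).toNat : ℕ) =
            ∑ i : Fin (l.colLen 0), l.rowLen i := by
          have e2 : ((∑ i : Fin (l.colLen 0), ((l.rowLen i : ℤ) - (i : ℕ) + (σ i : ℕ)).toNat : ℕ) : ℤ) =
              ((∑ i : Fin (l.colLen 0), l.rowLen i : ℕ) : ℤ) := by
            push_cast
            have e3 : ∀ i : Fin (l.colLen 0),
                (((l.rowLen i : ℤ) - (i : ℕ) + (σ i : ℕ)).toNat : ℤ) =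
                (l.rowLen i : ℤ) - (i : ℕ) + (σ i : ℕ) := fun i => Int.toNat_of_nonneg (h i)
            rw [Finset.sum_congr rfl (fun i _ => e3 i), Finset.sum_add_distrib,
              Finset.sum_sub_distrib, Equiv.sum_comp σ (fun i => ((i : ℕ) : ℤ))]
            ring
          exact_mod_cast e2
        rw [e1]
        have e4 := sum_cells l (fun _ => 1)
        rw [Finset.sum_const, smul_eq_mul, mul_one] at e4
        change _ = l.cells.card
        rw [e4, Finset.sum_range]
        simp
      · intro k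
        refine le_trans ?_ (h2 k)
        rw [List.sum_take_ofFn, ← sum_rowLen_range]
        have e5 := perm_sum_ge σ k
        zify at e5 ⊢
        have e3 : ∀ i : Fin (l.colLen 0),
            (((l.rowLen i : ℤ) - (i : ℕ) + (σ i : ℕ)).toNat : ℤ) =
            (l.rowLen i : ℤ) - (i : ℕ) + (σ i : ℕ) := fun i => Int.toNat_of_nonneg (h i)
        rw [Finset.sum_congr rfl (fun i _ => e3 i), Finset.sum_add_distrib,
          Finset.sum_sub_distrib]
        linarith
    · push Not at h
      obtain ⟨i, hi⟩ := h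
      rw [Finset.prod_eq_zero (Finset.mem_univ i)]
      · exact Submodule.zero_mem _
      · unfold homogZ
        rw [if_pos hi]
  rcases Int.units_eq_one_or (Equiv.Perm.sign σ) with hs | hs
  · rw [hs, one_smul]
    exact key
  · rw [hs, Units.neg_smul, one_smul]
    exact Submodule.neg_mem _ key

end Pool.Agent.Lib.MP_0e7911_co_full
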