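import Pool.Agent.Lib.MP_0e7911_co_h50.Basic

/-!
# M5: parabolic factorisation, M6: telescoping along a board
-/

set_option autoImplicit false

namespace Pool.Agent.Lib.MP_0e7911_co_h50

open Finset

theorem perm_apply_inv {d : ℕ} (g : Equiv.Perm (Fin d)) (x : Fin d) : g (g⁻¹ x) = x := by
  simp

theorem perm_inv_apply {d : ℕ} (g : Equiv.Perm (Fin d)) (x : Fin d) : g⁻¹ (g x) = x := by
  simp

theorem factor {K : Type*} [CommRing K] (q : K) {α : Type*} [LinearOrder α] {d : ℕ}
    (F f : Fin d → α) (hF : Monotone F) (τ0 : Equiv.Perm (Fin d)) (h0 : F ∘ τ0 = f) :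
    (∑ τ : Equiv.Perm (Fin d), if F ∘ τ = f then q ^ inv τ else 0) =
      q ^ (univ.filter (fun st : Fin d × Fin d => st.1 < st.2 ∧ f st.2 < f st.1)).card *
      ∑ g : Equiv.Perm (Fin d), if F ∘ g = F then q ^ inv g else 0 := by
  set σ := Tuple.sort f with hσ
  set τ1 := σ⁻¹ with hτ1
  have hsort : f ∘ σ = F := by
    have h1 : Monotone (f ∘ σ) := Tuple.monotone_sort f
    have h2 : f ∘ (τ0⁻¹ : Equiv.Perm (Fin d)) = F := by
      rw [← h0]; funext x; simp
    have h3 : Monotone (f ∘ (τ0⁻¹ : Equiv.Perm (Fin d))) := by rw [h2]; exact hF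
    rw [Tuple.unique_monotone h1 h3, h2]
  have h1 : F ∘ τ1 = f := by
    rw [← hsort]; funext x; simp [hτ1]
  have h1' : ∀ x, F (τ1 x) = f x := fun x => congrFun h1 x
  have hord : ∀ s t : Fin d, s < t → f s = f t → τ1 s < τ1 t := by
    intro s t hst hf
    by_contra hcon
    have hne : τ1 s ≠ τ1 t := fun h => hst.ne (τ1.injective h)
    have hlt : τ1 t < τ1 s := lt_of_le_of_ne (not_lt.mp hcon) hne.symm
    have h2 := (Tuple.eq_sort_iff.mp hσ).2 (τ1 t) (τ1 s) hlt (by
      simp only [hτ1, perm_apply_inv]; exact hf.symm)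
    simp only [hτ1, perm_apply_inv] at h2
    exact absurd h2 (not_lt.mpr hst.le)
  rw [← Equiv.sum_comp (Equiv.mulRight τ1), mul_sum]
  refine sum_congr rfl fun g _ => ?_
  have hiff : F ∘ (g * τ1 : Equiv.Perm (Fin d)) = f ↔ F ∘ g = F := by
    constructor
    · intro h
      funext x
      have := congrFun h (τ1⁻¹ x)
      simp only [Function.comp, Equiv.Perm.mul_apply, perm_apply_inv] at this
      rw [Function.comp, this, ← h1' (τ1⁻¹ x), perm_apply_inv]
    · intro h
      funext x
      have := congrFun h (τ1 x)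
      simp only [Function.comp, Equiv.Perm.mul_apply] at this ⊢
      rw [this, h1']
  simp only [Equiv.coe_mulRight, hiff]
  split_ifs with hg
  · rw [← pow_add]
    congr 1
    have hg' : ∀ x, F (g x) = F x := fun x => congrFun hg x
    -- splitting the inversions
    unfold inv
    have hsplit : (univ.filter (fun st : Fin d × Fin d =>
        st.1 < st.2 ∧ (g * τ1) st.2 < (g * τ1) st.1)) =
        (univ.filter (fun st : Fin d × Fin d => st.1 < st.2 ∧ f st.2 < f st.1)) ∪
        (univ.filter (fun st : Fin d × Fin d => st.1 < st.2 ∧ f st.1 = f st.2 ∧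
          (g * τ1) st.2 < (g * τ1) st.1)) := by
      ext ⟨s, t⟩
      simp only [mem_filter, mem_univ, true_and, mem_union]
      simp only [Equiv.Perm.mul_apply]
      constructor
      · rintro ⟨h2, h3⟩
        have h4 := hF h3.le
        rw [hg', hg', h1', h1'] at h4
        rcases h4.lt_or_eq with h5 | h5
        · exact Or.inl ⟨h2, h5⟩
        · exact Or.inr ⟨h2, h5.symm, h3⟩
      · rintro (⟨h2, h3⟩ | ⟨h2, -, h3⟩)
        · refine ⟨h2, ?_⟩
          by_contra hcon
          have h4 := hF (not_lt.mp hcon)
          rw [hg', hg', h1', h1'] at h4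
          exact absurd h3 (not_lt.mpr h4)
        · exact ⟨h2, h3⟩
    rw [hsplit, card_union_of_disjoint]
    · congr 1
      refine card_bij' (fun st _ => (τ1 st.1, τ1 st.2)) (fun st _ => (τ1⁻¹ st.1, τ1⁻¹ st.2))
        ?_ ?_ ?_ ?_
      · rintro ⟨s, t⟩ h
        simp only [mem_filter, mem_univ, true_and] at h ⊢
        simp only [Equiv.Perm.mul_apply] at h ⊢
        exact ⟨hord s t h.1 h.2.1, h.2.2⟩
      · rintro ⟨a, b⟩ h
        simp only [mem_filter, mem_univ, true_and] at h ⊢
        simp only [Equiv.Perm.mul_apply, perm_apply_inv] at h ⊢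
        have hFab : F a = F b := by
          apply le_antisymm (hF h.1.le)
          have := hF h.2.le
          rwa [hg', hg'] at this
        have hf : f (τ1⁻¹ a) = f (τ1⁻¹ b) := by
          rw [← h1' (τ1⁻¹ a), ← h1' (τ1⁻¹ b), perm_apply_inv,
            perm_apply_inv, hFab]
        refine ⟨?_, hf, h.2⟩
        by_contra hcon
        have hne : τ1⁻¹ b ≠ τ1⁻¹ a := fun he => h.1.ne (τ1⁻¹.injective he).symm
        have := hord _ _ (lt_of_le_of_ne (not_lt.mp hcon) hne) hf.symm
        rw [perm_apply_inv, perm_apply_inv] at this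
        exact absurd this (not_lt.mpr h.1.le)
      · rintro ⟨s, t⟩ _
        simp
      · rintro ⟨s, t⟩ _
        simp
    · rw [disjoint_filter]
      rintro ⟨s, t⟩ _ h2 h3
      exact absurd h3.2.1 h2.2.ne'
  · simp

/-! ## M6 -/

theorem tele_aux {K : Type*} [CommRing K] (q : K) (g : ℕ → ℕ) (hg : Monotone g) (o : ℕ) :
    ∀ i : ℕ, (∀ a < o, g a ≤ i) →
    (q - 1) * ((∑ r ∈ range i, q ^ (r + ((range o).filter (fun p => r < g p)).card)) -
      ∑ a ∈ range o, q ^ (g a + (o - 1 - a))) = q ^ i - q ^ o := by
  induction o with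
  | zero =>
    intro i _
    simp only [range_zero, filter_empty, card_empty, add_zero, sum_empty, sub_zero, pow_zero]
    rw [mul_comm]
    exact geom_sum_mul q i
  | succ o ih =>
    intro i hi
    have hgo : g o ≤ i := hi o (Nat.lt_succ_self o)
    have IH := ih (g o) (fun a ha => hg ha.le)
    have e1 : ∑ r ∈ range i, q ^ (r + ((range (o + 1)).filter (fun p => r < g p)).card) =
        q * (∑ r ∈ range (g o), q ^ (r + ((range o).filter (fun p => r < g p)).card)) +
        (∑ r ∈ range i, q ^ r - ∑ r ∈ range (g o), q ^ r) := by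
      rw [← sum_range_add_sum_Ico _ hgo, ← sum_range_add_sum_Ico (fun r => q ^ r) hgo,
        add_sub_cancel_left, mul_sum]
      congr 1
      · refine sum_congr rfl fun r hr => ?_
        have hr' : r < g o := mem_range.mp hr
        rw [range_add_one, filter_insert, if_pos hr', card_insert_of_notMem (by simp), ← pow_succ']
        congr 1
      · refine sum_congr rfl fun r hr => ?_
        have hr' := mem_Ico.mp hr
        have : ((range (o + 1)).filter (fun p => r < g p)) = ∅ := by
          rw [filter_eq_empty_iff]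
          intro p hp
          have hp' : p ≤ o := Nat.lt_succ_iff.mp (mem_range.mp hp)
          have := hg hp'
          omega
        rw [this, card_empty, add_zero]
    have e2 : ∑ a ∈ range (o + 1), q ^ (g a + (o + 1 - 1 - a)) =
        q * (∑ a ∈ range o, q ^ (g a + (o - 1 - a))) + q ^ g o := by
      rw [sum_range_succ, mul_sum]
      congr 1
      · refine sum_congr rfl fun a ha => ?_
        have ha' := mem_range.mp ha
        rw [← pow_succ']
        congr 1
        omega
      · congr 1; omega
    rw [e1, e2]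
    have g1 : (∑ r ∈ range i, q ^ r) * (q - 1) = q ^ i - 1 := geom_sum_mul q i
    have g2 : (∑ r ∈ range (g o), q ^ r) * (q - 1) = q ^ g o - 1 := geom_sum_mul q (g o)
    linear_combination q * IH + g1 - g2

theorem tele {K : Type*} [CommRing K] (q : K) {e : ℕ} (al : Fin (e + 1) → ℕ)
    (hal : Monotone al) (hle : ∀ a, al a ≤ e + 1) (i o : ℕ) (hi : i ≤ e + 1) (ho : o ≤ e + 1)
    (h1 : ∀ a : Fin (e + 1), (a : ℕ) < o → al a ≤ i)
    (h2 : ∀ a : Fin (e + 1), o ≤ (a : ℕ) → i ≤ al a) :
    (q - 1) * ((∑ r : Fin (e + 1), if (r : ℕ) < i then q ^ ((r : ℕ) + predc al r) else 0) -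
      ∑ a : Fin (e + 1), if (a : ℕ) < o then q ^ (e - (a : ℕ) + al a) else 0) =
      q ^ (e + 1 + i - o) - q ^ (e + 1) := by
  set g : ℕ → ℕ := fun a => if h : a < e + 1 then al ⟨a, h⟩ else e + 1 with hg
  have hgal : ∀ a : Fin (e + 1), g a = al a := by
    intro a
    simp only [hg, a.2, dif_pos, Fin.eta]
  have hgm : Monotone g := by
    intro a b hab
    simp only [hg]
    split_ifs with ha hb hb
    · exact hal hab
    · exact hle _
    · omega
    · exact le_rfl
  have key := tele_aux q g hgm o i (fun a ha => by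
    have ha' : a < e + 1 := by omega
    have := h1 ⟨a, ha'⟩ ha
    rw [← hgal] at this
    exact this)
  have s1 : (∑ r : Fin (e + 1), if (r : ℕ) < i then q ^ ((r : ℕ) + predc al r) else 0) =
      q ^ (e + 1 - o) *
        ∑ r ∈ range i, q ^ (r + ((range o).filter (fun p => r < g p)).card) := by
    have hpred : ∀ r : Fin (e + 1), (r : ℕ) < i → predc al r =
        (e + 1 - o) + ((range o).filter (fun p => (r : ℕ) < g p)).card := by
      intro r hr
      unfold predc
      have e1 : (univ.filter (fun p : Fin (e + 1) => (r : ℕ) < al p)).card =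
          ((range (e + 1)).filter (fun p => (r : ℕ) < g p)).card := by
        refine card_bij' (fun p _ => (p : ℕ)) (fun p hp => ⟨p, by
          exact mem_range.mp (mem_filter.mp hp).1⟩) ?_ ?_ ?_ ?_
        · intro p hp
          simp only [mem_filter, mem_univ, true_and, mem_range] at hp ⊢
          exact ⟨p.2, by rw [hgal]; exact hp⟩
        · intro p hp
          simp only [mem_filter, mem_univ, true_and, mem_range] at hp ⊢
          have := hgal ⟨p, hp.1⟩
          rw [← this]; exact hp.2
        · intro p _; rfl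
        · intro p _; rfl
      rw [e1]
      have e2 : (range (e + 1)).filter (fun p => (r : ℕ) < g p) =
          (Finset.Ico o (e + 1)) ∪ (range o).filter (fun p => (r : ℕ) < g p) := by
        ext p
        simp only [mem_filter, mem_range, mem_union, mem_Ico]
        constructor
        · rintro ⟨h3, h4⟩
          by_cases hp : p < o
          · exact Or.inr ⟨hp, h4⟩
          · exact Or.inl ⟨by omega, h3⟩
        · rintro (⟨h3, h4⟩ | ⟨h3, h4⟩)
          · refine ⟨h4, ?_⟩
            have h5 := h2 ⟨p, h4⟩ h3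
            rw [← hgal] at h5
            exact lt_of_lt_of_le hr h5
          · exact ⟨by omega, h4⟩
      rw [e2, card_union_of_disjoint, Nat.card_Ico]
      rw [disjoint_left]
      intro p hp hp'
      simp only [mem_filter, mem_range, mem_Ico] at hp hp'
      omega
    have e3 : (∑ r : Fin (e + 1), if (r : ℕ) < i then q ^ ((r : ℕ) + predc al r) else 0) =
        ∑ r : Fin (e + 1), if (r : ℕ) < i then q ^ ((r : ℕ) + ((e + 1 - o) +
          ((range o).filter (fun p => (r : ℕ) < g p)).card)) else 0 := by
      refine sum_congr rfl fun r _ => ?_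
      split_ifs with hr
      · rw [hpred r hr]
      · rfl
    rw [e3, Fin.sum_univ_eq_sum_range (fun r => if r < i then q ^ (r + ((e + 1 - o) +
      ((range o).filter (fun p => r < g p)).card)) else 0), ← sum_filter, mul_sum]
    have e4 : (range (e + 1)).filter (fun r => r < i) = range i := by
      ext r; simp only [mem_filter, mem_range]; omega
    rw [e4]
    refine sum_congr rfl fun r _ => ?_
    rw [← pow_add]
    congr 1; omega
  have s2 : (∑ a : Fin (e + 1), if (a : ℕ) < o then q ^ (e - (a : ℕ) + al a) else 0) =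
      q ^ (e + 1 - o) * ∑ a ∈ range o, q ^ (g a + (o - 1 - a)) := by
    have e3 : (∑ a : Fin (e + 1), if (a : ℕ) < o then q ^ (e - (a : ℕ) + al a) else 0) =
        ∑ a : Fin (e + 1), if (a : ℕ) < o then q ^ (e - (a : ℕ) + g a) else 0 := by
      refine sum_congr rfl fun a _ => ?_
      rw [hgal]
    rw [e3, Fin.sum_univ_eq_sum_range (fun a => if a < o then q ^ (e - a + g a) else 0),
      ← sum_filter, mul_sum]
    have e4 : (range (e + 1)).filter (fun r => r < o) = range o := by
      ext r; simp only [mem_filter, mem_range]; omega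
    rw [e4]
    refine sum_congr rfl fun a ha => ?_
    have ha' := mem_range.mp ha
    rw [← pow_add]
    congr 1; omega
  rw [s1, s2]
  have e5 : q ^ (e + 1 + i - o) = q ^ (e + 1 - o) * q ^ i := by
    rw [← pow_add]; congr 1; omega
  have e6 : q ^ (e + 1) = q ^ (e + 1 - o) * q ^ o := by
    rw [← pow_add]; congr 1; omega
  rw [e5, e6]
  linear_combination q ^ (e + 1 - o) * key

end Pool.Agent.Lib.MP_0e7911_co_h50
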