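import Pool.Agent.Lib.MP_0e7911_co_h50.KeyDefs
import Pool.Agent.Lib.MP_0e7911_co_h88.M5

/-!
# M7c: from key sequences to tables
-/

set_option autoImplicit false

namespace Pool.Agent.Lib.MP_0e7911_co_h50

open Finset

namespace M7c

/-- a down-set of `Fin n` is an initial segment -/
theorem lt_card_iff {n : ℕ} (p : Fin n → Prop) [DecidablePred p]
    (hp : ∀ x y, x ≤ y → p y → p x) (r : Fin n) :
    p r ↔ (r : ℕ) < (univ.filter p).card := by
  constructor
  · intro hr
    have h1 : univ.filter (fun x : Fin n => (x : ℕ) < r + 1) ⊆ univ.filter p := by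
      intro x hx
      rw [mem_filter] at hx ⊢
      exact ⟨mem_univ _, hp x r (by rw [Fin.le_def]; omega) hr⟩
    have h2 := card_le_card h1
    have h3 : (univ.filter (fun x : Fin n => (x : ℕ) < r + 1)).card = r + 1 := by
      have : univ.filter (fun x : Fin n => (x : ℕ) < r + 1) = Finset.Iic r := by
        ext x
        rw [mem_filter, mem_Iic, Fin.le_def]
        simp only [mem_univ, true_and]
        omega
      rw [this, Fin.card_Iic]
    omega
  · intro hr
    by_contra hnp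
    have h1 : univ.filter p ⊆ univ.filter (fun x : Fin n => (x : ℕ) < r) := by
      intro x hx
      rw [mem_filter] at hx ⊢
      refine ⟨mem_univ _, ?_⟩
      by_contra hcon
      exact hnp (hp r x (by rw [Fin.le_def]; omega) hx.2)
    have h2 := card_le_card h1
    have h3 : (univ.filter (fun x : Fin n => (x : ℕ) < r)).card = r := by
      have : univ.filter (fun x : Fin n => (x : ℕ) < r) = Finset.Iio r := by
        ext x
        rw [mem_filter, mem_Iio, Fin.lt_def]
        simp only [mem_univ, true_and]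
      rw [this, Fin.card_Iio]
    omega

section

variable {α : Type*} [LinearOrder α] {b e : ℕ} (R : α → α → Prop) [DecidableRel R]
  (F : ℕ → Fin (e + 1) → α)

theorem board_iff (hR2 : ∀ x y y', y' ≤ y → R x y → R x y') (hF : ∀ i, Monotone (F i)) (i : ℕ)
    (r r' : Fin (e + 1)) : (r' : ℕ) < board R F i r ↔ R (F i r) (F (i + 1) r') := by
  unfold board
  exact (lt_card_iff (fun r' => R (F i r) (F (i + 1) r'))
    (fun x y hxy hy => hR2 _ _ _ (hF (i + 1) hxy) hy) r').symm

/-- the key sequence of a table -/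
def fs (j : ℕ) (τ : Fin (b + 1) → Equiv.Perm (Fin (e + 1))) : Fin (b + 1) → Fin (e + 1) → α :=
  fun i => F ((i : ℕ) + j) ∘ τ i

/-- the part of the statistic which depends on adjacent classes -/
def rest (f : Fin (b + 1) → Fin (e + 1) → α) : ℕ :=
  (∑ i : Fin b, (univ.filter (fun st : Fin (e + 1) × Fin (e + 1) =>
      st.1 < st.2 ∧ R (f i.castSucc st.2) (f i.succ st.1))).card) +
  (univ.filter (fun st : Fin (e + 1) × Fin (e + 1) =>
      st.1 ≤ st.2 ∧ R (f (Fin.last b) st.2) (f 0 st.1))).card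

theorem adj_iff (hR2 : ∀ x y y', y' ≤ y → R x y → R x y') (hF : ∀ i, Monotone (F i))
    (hper : ∀ i, F (i + (b + 1)) = F i) (j : ℕ) (τ : Fin (b + 1) → Equiv.Perm (Fin (e + 1))) :
    Adj (fun i => board R F (i + j)) τ ↔ AdjK R (fs F j τ) := by
  unfold Adj AdjK fs
  have e1 : ∀ (i : Fin b), (i : ℕ) + j + 1 = ((i.succ : Fin (b + 1)) : ℕ) + j := by
    intro i; rw [Fin.val_succ]; omega
  have e2 : ∀ (i : Fin b), (i : ℕ) + j = ((i.castSucc : Fin (b + 1)) : ℕ) + j := by
    intro i; rw [Fin.val_castSucc]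
  have e3 : F (b + j + 1) = F ((0 : Fin (b + 1)) + j : ℕ) := by
    rw [show b + j + 1 = j + (b + 1) by ring, hper]
    simp
  have e4 : b + j = ((Fin.last b : Fin (b + 1)) : ℕ) + j := by simp
  refine and_congr ?_ ?_
  · refine forall_congr' fun i => forall_congr' fun t => ?_
    rw [board_iff R F hR2 hF, e1, e2]
    rfl
  · refine forall_congr' fun t => ?_
    rw [board_iff R F hR2 hF, e3, e4]
    rfl

theorem TT_eq (hR2 : ∀ x y y', y' ≤ y → R x y → R x y') (hF : ∀ i, Monotone (F i))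
    (hper : ∀ i, F (i + (b + 1)) = F i) (j : ℕ) (τ : Fin (b + 1) → Equiv.Perm (Fin (e + 1))) :
    TT (fun i => board R F (i + j)) τ = (∑ i, inv (τ i)) + rest R (fs F j τ) := by
  unfold TT rest fs
  rw [add_assoc]
  congr 1
  have e1 : ∀ (i : Fin b), (i : ℕ) + j + 1 = ((i.succ : Fin (b + 1)) : ℕ) + j := by
    intro i; rw [Fin.val_succ]; omega
  have e2 : ∀ (i : Fin b), (i : ℕ) + j = ((i.castSucc : Fin (b + 1)) : ℕ) + j := by
    intro i; rw [Fin.val_castSucc]
  have e3 : F (b + j + 1) = F ((0 : Fin (b + 1)) + j : ℕ) := by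
    rw [show b + j + 1 = j + (b + 1) by ring, hper]
    simp
  have e4 : b + j = ((Fin.last b : Fin (b + 1)) : ℕ) + j := by simp
  congr 1
  · refine sum_congr rfl fun i _ => ?_
    congr 1
    ext st
    rw [mem_filter, mem_filter]
    refine and_congr Iff.rfl (and_congr Iff.rfl ?_)
    rw [board_iff R F hR2 hF, e1, e2]
    rfl
  · congr 1
    ext st
    rw [mem_filter, mem_filter]
    refine and_congr Iff.rfl (and_congr Iff.rfl ?_)
    rw [board_iff R F hR2 hF, e3, e4]
    rfl

theorem TK_eq (f : Fin (b + 1) → Fin (e + 1) → α) :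
    TK R f = (∑ i, (univ.filter (fun st : Fin (e + 1) × Fin (e + 1) =>
      st.1 < st.2 ∧ f i st.2 < f i st.1)).card) + rest R f := by
  unfold TK rest
  rw [add_assoc]

end

/-- products over a full period -/
theorem prod_period {K : Type*} [CommRing K] (Z : ℕ → K) (b : ℕ) (hZ : ∀ i, Z (i + (b + 1)) = Z i)
    (j : ℕ) : ∏ i ∈ range (b + 1), Z (i + j) = ∏ i ∈ range (b + 1), Z i := by
  induction j with
  | zero => rfl
  | succ j ih =>
    rw [← ih, prod_range_succ, prod_range_succ']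
    congr 1
    · refine prod_congr rfl fun i _ => ?_
      congr 1; ring
    · rw [show b + (j + 1) = j + (b + 1) by ring, hZ, zero_add]

end M7c

open M7c in
theorem key_sum {K : Type*} [CommRing K] (q : K) {α : Type*} [LinearOrder α] {b e : ℕ}
    (R : α → α → Prop) [DecidableRel R]
    (hR1 : ∀ x x' y, x ≤ x' → R x y → R x' y) (hR2 : ∀ x y y', y' ≤ y → R x y → R x y')
    (F : ℕ → Fin (e + 1) → α) (hF : ∀ i, Monotone (F i))
    (hper : ∀ i, F (i + (b + 1)) = F i)
    (P : (Fin (b + 1) → Fin (e + 1) → α) → Prop) [DecidablePred P] (j : ℕ) :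
    (∑ f ∈ Seqs (b := b) F j, if AdjK R f ∧ P f then q ^ TK R f else 0) *
      (∏ i ∈ range (b + 1), ∑ g : Equiv.Perm (Fin (e + 1)),
        if F i ∘ g = F i then q ^ inv g else 0) =
    ∑ τ : Fin (b + 1) → Equiv.Perm (Fin (e + 1)),
      if Adj (fun i => board R F (i + j)) τ ∧ P (fun i => F ((i : ℕ) + j) ∘ τ i)
        then q ^ TT (fun i => board R F (i + j)) τ else 0 := by
  classical
  set Z : ℕ → K := fun i => ∑ g : Equiv.Perm (Fin (e + 1)),
    if F i ∘ g = F i then q ^ inv g else 0 with hZ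
  have hZper : ∀ i, Z (i + (b + 1)) = Z i := by
    intro i; simp only [hZ, hper]
  have hprod : ∏ i ∈ range (b + 1), Z i = ∏ i : Fin (b + 1), Z ((i : ℕ) + j) := by
    rw [← prod_period Z b hZper j, ← Fin.prod_univ_eq_prod_range (fun i => Z (i + j))]
  change (∑ f ∈ Seqs (b := b) F j, if AdjK R f ∧ P f then q ^ TK R f else 0) *
    (∏ i ∈ range (b + 1), Z i) = _
  rw [hprod, sum_mul]
  -- the fibres
  have hmaps : ∀ τ ∈ (univ : Finset (Fin (b + 1) → Equiv.Perm (Fin (e + 1)))),
      fs F j τ ∈ Seqs (b := b) F j := by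
    intro τ _
    unfold Seqs
    exact mem_image_of_mem _ (mem_univ τ)
  rw [← sum_fiberwise_of_maps_to hmaps]
  refine sum_congr rfl fun f hf => ?_
  obtain ⟨τ0, -, hτ0⟩ := mem_image.mp hf
  have hτ0' : ∀ i : Fin (b + 1), F ((i : ℕ) + j) ∘ τ0 i = f i := fun i => congrFun hτ0 i
  have hinner : ∑ τ ∈ univ.filter (fun τ : Fin (b + 1) → Equiv.Perm (Fin (e + 1)) =>
      fs F j τ = f), (if Adj (fun i => board R F (i + j)) τ ∧ P (fun i => F ((i : ℕ) + j) ∘ τ i)
        then q ^ TT (fun i => board R F (i + j)) τ else 0) =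
      (if AdjK R f ∧ P f then q ^ rest R f else 0) *
        ∑ τ ∈ univ.filter (fun τ : Fin (b + 1) → Equiv.Perm (Fin (e + 1)) =>
          fs F j τ = f), q ^ (∑ i, inv (τ i)) := by
    rw [mul_sum]
    refine sum_congr rfl fun τ hτ => ?_
    have hτf : fs F j τ = f := (mem_filter.mp hτ).2
    have h1 : Adj (fun i => board R F (i + j)) τ ↔ AdjK R f := by
      rw [adj_iff R F hR2 hF hper, hτf]
    have h2 : (fun i => F ((i : Fin (b + 1)) + j : ℕ) ∘ τ i) = f := hτf
    rw [h2, TT_eq R F hR2 hF hper, hτf]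
    by_cases h3 : AdjK R f ∧ P f
    · rw [if_pos h3, if_pos ⟨h1.2 h3.1, h3.2⟩, ← pow_add, add_comm]
    · rw [if_neg h3, if_neg (fun h4 => h3 ⟨h1.1 h4.1, h4.2⟩), zero_mul]
  rw [hinner]
  have hfib : ∑ τ ∈ univ.filter (fun τ : Fin (b + 1) → Equiv.Perm (Fin (e + 1)) =>
      fs F j τ = f), q ^ (∑ i, inv (τ i)) =
      q ^ (∑ i, (univ.filter (fun st : Fin (e + 1) × Fin (e + 1) =>
        st.1 < st.2 ∧ f i st.2 < f i st.1)).card) * ∏ i : Fin (b + 1), Z ((i : ℕ) + j) := by
    rw [← prod_pow_eq_pow_sum, ← prod_mul_distrib]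
    have h1 : ∀ i : Fin (b + 1), q ^ (univ.filter (fun st : Fin (e + 1) × Fin (e + 1) =>
        st.1 < st.2 ∧ f i st.2 < f i st.1)).card * Z ((i : ℕ) + j) =
        ∑ g : Equiv.Perm (Fin (e + 1)), if F ((i : ℕ) + j) ∘ g = f i then q ^ inv g else 0 :=
      fun i => (factor q (F ((i : ℕ) + j)) (f i) (hF _) (τ0 i) (hτ0' i)).symm
    simp only [h1]
    rw [prod_univ_sum, Fintype.piFinset_univ, sum_filter]
    refine sum_congr rfl fun τ _ => ?_
    rw [prod_ite_zero]
    have h2 : fs F j τ = f ↔ ∀ i ∈ (univ : Finset (Fin (b + 1))), F ((i : ℕ) + j) ∘ τ i = f i := by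
      constructor
      · intro h i _; exact congrFun h i
      · intro h; funext i; exact h i (mem_univ i)
    by_cases h3 : fs F j τ = f
    · rw [if_pos h3, if_pos (h2.1 h3), prod_pow_eq_pow_sum]
    · rw [if_neg h3, if_neg (fun h4 => h3 (h2.2 h4))]
  rw [hfib, TK_eq]
  by_cases h3 : AdjK R f ∧ P f
  · rw [if_pos h3, if_pos h3, pow_add]; ring
  · rw [if_neg h3, if_neg h3, zero_mul, zero_mul]

end Pool.Agent.Lib.MP_0e7911_co_h50
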