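import Pool.Agent.Lib.MP_0e7911_co_h50.Basic

/-!
# M3: board matrices commute with the colour operators
-/

set_option autoImplicit false

namespace Pool.Agent.Lib.MP_0e7911_co_h50

open Finset

namespace M3

theorem perm_apply_inv {d : ℕ} (g : Equiv.Perm (Fin d)) (x : Fin d) : g (g⁻¹ x) = x := by
  simp

theorem perm_inv_apply {d : ℕ} (g : Equiv.Perm (Fin d)) (x : Fin d) : g⁻¹ (g x) = x := by
  simp

section

variable {d i : ℕ} (h : i + 1 < d)

theorem sw_sw : sw d i h * sw d i h = 1 := by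
  unfold sw; exact Equiv.swap_mul_self _ _

theorem sw_inv : (sw d i h)⁻¹ = sw d i h := by
  unfold sw; exact Equiv.swap_inv _ _

theorem sw_sw_mul (c : Equiv.Perm (Fin d)) : sw d i h * (sw d i h * c) = c := by
  rw [← mul_assoc, sw_sw, one_mul]

theorem sw_ne (c : Equiv.Perm (Fin d)) : sw d i h * c ≠ c := by
  intro he
  have h1 : sw d i h = 1 := by
    have := congrArg (fun g => g * c⁻¹) he
    simpa using this
  have h2 := congrArg (fun g : Equiv.Perm (Fin d) => g ⟨i, by omega⟩) h1
  simp only [sw, Equiv.swap_apply_left, Equiv.Perm.one_apply, Fin.mk.injEq] at h2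
  omega

/-- colour `i` sits at a lower position than colour `i+1` -/
def Asc (c : Equiv.Perm (Fin d)) : Prop := c⁻¹ ⟨i, by omega⟩ < c⁻¹ ⟨i + 1, h⟩

instance (c : Equiv.Perm (Fin d)) : Decidable (Asc h c) := by unfold Asc; infer_instance

theorem sw_left : sw d i h ⟨i, by omega⟩ = ⟨i + 1, h⟩ := by
  unfold sw; exact Equiv.swap_apply_left _ _

theorem sw_right : sw d i h ⟨i + 1, h⟩ = ⟨i, by omega⟩ := by
  unfold sw; exact Equiv.swap_apply_right _ _

theorem asc_sw (c : Equiv.Perm (Fin d)) : Asc h (sw d i h * c) ↔ ¬ Asc h c := by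
  unfold Asc
  rw [mul_inv_rev, sw_inv, Equiv.Perm.mul_apply, Equiv.Perm.mul_apply, sw_left, sw_right]
  constructor
  · exact fun h1 => not_lt.mpr h1.le
  · intro h1
    refine lt_of_le_of_ne (not_lt.mp h1) (fun he => ?_)
    have := c⁻¹.injective he
    simp only [Fin.mk.injEq] at this
    omega

/-- comparison of colours after the swap -/
theorem sw_lt (a b : Fin d) : sw d i h b < sw d i h a ↔
    (b < a ∧ ¬ (b = ⟨i, by omega⟩ ∧ a = ⟨i + 1, h⟩)) ∨ (b = ⟨i + 1, h⟩ ∧ a = ⟨i, by omega⟩) := by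
  have key : ∀ x : Fin d, ((sw d i h x : Fin d) : ℕ) =
      if (x : ℕ) = i then i + 1 else if (x : ℕ) = i + 1 then i else x := by
    intro x
    unfold sw
    rw [Equiv.swap_apply_def]
    simp only [Fin.ext_iff]
    split_ifs <;> simp_all
  rw [Fin.lt_def, key, key, Fin.lt_def]
  simp only [Fin.ext_iff]
  split_ifs <;> omega

end

/-- the exponent of the entries of the board matrix -/
def Rst {d : ℕ} (al : Fin d → ℕ) (c : Equiv.Perm (Fin d)) (σ : Fin d → ℕ) : ℕ :=
  (univ.filter (fun pp : Fin d × Fin d =>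
    pp.1 < pp.2 ∧ c pp.2 < c pp.1 ∧ σ pp.2 < al pp.1)).card

theorem Bmat_eq {K : Type*} [CommRing K] (q : K) {d : ℕ} (al : Fin d → ℕ)
    (c' c : Equiv.Perm (Fin d)) : Bmat q al c' c =
    if ∀ p : Fin d, ((c'⁻¹ (c p) : Fin d) : ℕ) < al p then
      q ^ Rst al c (fun p => ((c'⁻¹ (c p) : Fin d) : ℕ)) else 0 := rfl

theorem Rst_eq_sum {d : ℕ} (al : Fin d → ℕ) (c : Equiv.Perm (Fin d)) (σ : Fin d → ℕ) :
    Rst al c σ = ∑ p : Fin d, (univ.filter (fun pp : Fin d =>
      p < pp ∧ c pp < c p ∧ σ pp < al p)).card := by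
  unfold Rst
  rw [card_filter, Fintype.sum_prod_type]
  refine sum_congr rfl fun p _ => ?_
  rw [card_filter]

section

variable {d i : ℕ} (h : i + 1 < d)

/-- one more inversion after the swap -/
theorem Rst_sw {al : Fin d → ℕ} {c : Equiv.Perm (Fin d)} (hc : Asc h c) (σ : Fin d → ℕ) :
    Rst al (sw d i h * c) σ = Rst al c σ +
      (if σ (c⁻¹ ⟨i + 1, h⟩) < al (c⁻¹ ⟨i, by omega⟩) then 1 else 0) := by
  have hpair : ∀ p pp : Fin d, p < pp → (((sw d i h * c) pp < (sw d i h * c) p) ↔
      (c pp < c p ∨ (p = c⁻¹ ⟨i, by omega⟩ ∧ pp = c⁻¹ ⟨i + 1, h⟩))) := by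
    intro p pp hp
    rw [Equiv.Perm.mul_apply, Equiv.Perm.mul_apply, sw_lt]
    have e1 : ∀ (x y : Fin d), c x = y ↔ x = c⁻¹ y := by
      intro x y
      constructor
      · rintro rfl; exact (perm_inv_apply c x).symm
      · rintro rfl; exact perm_apply_inv c y
    rw [e1, e1, e1, e1]
    unfold Asc at hc
    constructor
    · rintro (⟨h1, -⟩ | ⟨h1, h2⟩)
      · exact Or.inl h1
      · exact Or.inr ⟨h2, h1⟩
    · rintro (h1 | ⟨h1, h2⟩)
      · refine Or.inl ⟨h1, ?_⟩
        rintro ⟨h2, h3⟩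
        rw [h2, h3] at hp
        exact absurd hp (not_lt.mpr hc.le)
      · exact Or.inr ⟨h2, h1⟩
  have hn : ¬ (c (c⁻¹ ⟨i + 1, h⟩) < c (c⁻¹ ⟨i, by omega⟩)) := by
    rw [perm_apply_inv, perm_apply_inv, Fin.lt_def]
    simp
  split_ifs with hlt
  · unfold Rst
    have hset : (univ.filter (fun pp : Fin d × Fin d =>
        pp.1 < pp.2 ∧ (sw d i h * c) pp.2 < (sw d i h * c) pp.1 ∧ σ pp.2 < al pp.1)) =
        insert (c⁻¹ ⟨i, by omega⟩, c⁻¹ ⟨i + 1, h⟩) (univ.filter (fun pp : Fin d × Fin d =>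
          pp.1 < pp.2 ∧ c pp.2 < c pp.1 ∧ σ pp.2 < al pp.1)) := by
      ext ⟨p, pp⟩
      rw [mem_insert, mem_filter, mem_filter]
      simp only [mem_univ, true_and, Prod.mk.injEq]
      constructor
      · rintro ⟨h1, h2, h3⟩
        rcases (hpair p pp h1).1 h2 with h4 | h4
        · exact Or.inr ⟨h1, h4, h3⟩
        · exact Or.inl h4
      · rintro (⟨rfl, rfl⟩ | ⟨h1, h2, h3⟩)
        · exact ⟨hc, (hpair _ _ hc).2 (Or.inr ⟨rfl, rfl⟩), hlt⟩
        · exact ⟨h1, (hpair _ _ h1).2 (Or.inl h2), h3⟩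
    rw [hset, card_insert_of_notMem]
    rw [mem_filter]
    rintro ⟨-, -, h2, -⟩
    exact hn h2
  · unfold Rst
    rw [add_zero]
    congr 1
    ext ⟨p, pp⟩
    rw [mem_filter, mem_filter]
    simp only [mem_univ, true_and]
    constructor
    · rintro ⟨h1, h2, h3⟩
      rcases (hpair p pp h1).1 h2 with h4 | ⟨h4, h5⟩
      · exact ⟨h1, h4, h3⟩
      · rw [h4, h5] at h3
        exact absurd h3 hlt
    · rintro ⟨h1, h2, h3⟩
      exact ⟨h1, (hpair _ _ h1).2 (Or.inl h2), h3⟩

/-- invariance of the exponent under exchanging the successors -/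
theorem Rst_swap {al : Fin d → ℕ} (hal : Monotone al) {c : Equiv.Perm (Fin d)} (hc : Asc h c)
    (σ σ' : Fin d → ℕ)
    (e1 : σ' (c⁻¹ ⟨i, by omega⟩) = σ (c⁻¹ ⟨i + 1, h⟩))
    (e2 : σ' (c⁻¹ ⟨i + 1, h⟩) = σ (c⁻¹ ⟨i, by omega⟩))
    (e3 : ∀ p, p ≠ c⁻¹ ⟨i, by omega⟩ → p ≠ c⁻¹ ⟨i + 1, h⟩ → σ' p = σ p)
    (b1 : σ (c⁻¹ ⟨i, by omega⟩) < al (c⁻¹ ⟨i, by omega⟩))
    (b2 : σ (c⁻¹ ⟨i + 1, h⟩) < al (c⁻¹ ⟨i, by omega⟩)) :
    Rst al c σ = Rst al c σ' := by
  set P : Fin d := c⁻¹ ⟨i, by omega⟩ with hP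
  set P' : Fin d := c⁻¹ ⟨i + 1, h⟩ with hP'
  have hcP : (c P : ℕ) = i := by rw [hP, perm_apply_inv]
  have hcP' : (c P' : ℕ) = i + 1 := by rw [hP', perm_apply_inv]
  have hPP' : P < P' := hc
  have hinj : ∀ x y : Fin d, (c x : ℕ) = c y → x = y := fun x y hxy => c.injective (Fin.ext hxy)
  rw [Rst_eq_sum, Rst_eq_sum]
  refine sum_congr rfl fun p _ => ?_
  by_cases hp : p < P
  · -- exchange
    refine card_bij' (fun pp _ => Equiv.swap P P' pp) (fun pp _ => Equiv.swap P P' pp)
      ?_ ?_ (fun pp _ => Equiv.swap_apply_self _ _ _) (fun pp _ => Equiv.swap_apply_self _ _ _)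
    all_goals
      intro pp hpp
      rw [mem_filter] at hpp ⊢
      obtain ⟨-, h1, h2, h3⟩ := hpp
      refine ⟨mem_univ _, ?_⟩
      have hpP : p ≠ P := hp.ne
      have hpP' : p ≠ P' := (hp.trans hPP').ne
      have n1 : (c p : ℕ) ≠ i := fun he => hpP (hinj _ _ (by rw [he, hcP]))
      have n2 : (c p : ℕ) ≠ i + 1 := fun he => hpP' (hinj _ _ (by rw [he, hcP']))
      by_cases q1 : pp = P
      · subst q1
        rw [Equiv.swap_apply_left]
        refine ⟨hp.trans hPP', ?_, ?_⟩
        · rw [Fin.lt_def] at h2 ⊢; omega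
        · first
          | rw [e2]; exact h3
          | rw [← e1]; exact h3
      · by_cases q2 : pp = P'
        · subst q2
          rw [Equiv.swap_apply_right]
          refine ⟨hp, ?_, ?_⟩
          · rw [Fin.lt_def] at h2 ⊢; omega
          · first
            | rw [e1]; exact h3
            | rw [← e2]; exact h3
        · rw [Equiv.swap_apply_of_ne_of_ne q1 q2]
          refine ⟨h1, h2, ?_⟩
          first
          | rw [e3 pp q1 q2]; exact h3
          | rw [← e3 pp q1 q2]; exact h3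
  · -- no dependence
    congr 1
    ext pp
    rw [mem_filter, mem_filter]
    simp only [mem_univ, true_and, and_congr_right_iff]
    intro h1 h2
    have hpp : pp ≠ P := by
      rintro rfl
      exact hp h1
    by_cases q2 : pp = P'
    · rw [q2, e2]
      have : al P ≤ al p := hal (not_lt.mp hp)
      constructor
      · intro _; omega
      · intro _; omega
    · rw [e3 pp hpp q2]

/-- the commutation relation for an ascending column -/
theorem asc_id {K : Type*} [CommRing K] (q : K) {al : Fin d → ℕ} (hal : Monotone al)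
    (c' c : Equiv.Perm (Fin d)) (hc : Asc h c) :
    Bmat q al c' (sw d i h * c) =
      (if Asc h c' then q else 1) * Bmat q al (sw d i h * c') c +
      (if Asc h c' then 0 else q - 1) * Bmat q al c' c := by
  -- values of the three successor maps
  set P : Fin d := c⁻¹ ⟨i, by omega⟩ with hP
  set P' : Fin d := c⁻¹ ⟨i + 1, h⟩ with hP'
  have hcP : c P = ⟨i, by omega⟩ := by rw [hP, perm_apply_inv]
  have hcP' : c P' = ⟨i + 1, h⟩ := by rw [hP', perm_apply_inv]
  have hPP' : P < P' := hc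
  set Q : Fin d := c'⁻¹ ⟨i, by omega⟩ with hQ
  set Q' : Fin d := c'⁻¹ ⟨i + 1, h⟩ with hQ'
  have hσeq : ∀ p, (sw d i h * c')⁻¹ (c p) = c'⁻¹ ((sw d i h * c) p) := by
    intro p
    rw [mul_inv_rev, sw_inv, Equiv.Perm.mul_apply, Equiv.Perm.mul_apply]
  have v1 : c'⁻¹ ((sw d i h * c) P) = Q' := by
    rw [Equiv.Perm.mul_apply, hcP, sw_left]
  have v2 : c'⁻¹ ((sw d i h * c) P') = Q := by
    rw [Equiv.Perm.mul_apply, hcP', sw_right]
  have v3 : ∀ p, p ≠ P → p ≠ P' → c'⁻¹ ((sw d i h * c) p) = c'⁻¹ (c p) := by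
    intro p h1 h2
    rw [Equiv.Perm.mul_apply]
    unfold sw
    rw [Equiv.swap_apply_of_ne_of_ne]
    · intro he; exact h1 (by rw [hP, ← he, perm_inv_apply])
    · intro he; exact h2 (by rw [hP', ← he, perm_inv_apply])
  have v4 : c'⁻¹ (c P) = Q := by rw [hcP]
  have v5 : c'⁻¹ (c P') = Q' := by rw [hcP']
  rw [Bmat_eq, Bmat_eq, Bmat_eq]
  simp only [hσeq]
  rw [Rst_sw h hc]
  change (if _ then q ^ (_ + (if ((c'⁻¹ ((sw d i h * c) P') : Fin d) : ℕ) < al P then 1 else 0))
    else 0) = _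
  rw [v2]
  by_cases hcond : ∀ p : Fin d, ((c'⁻¹ ((sw d i h * c) p) : Fin d) : ℕ) < al p
  · rw [if_pos hcond, if_pos hcond]
    have c1 := hcond P
    have c2 := hcond P'
    rw [v1] at c1
    rw [v2] at c2
    by_cases ha : Asc h c'
    · rw [if_pos ha, if_pos ha]
      have hQQ : Q < Q' := ha
      rw [Fin.lt_def] at hQQ
      rw [if_pos (by omega), zero_mul, add_zero, pow_succ, mul_comm]
    · rw [if_neg ha, if_neg ha, one_mul]
      have hQQ : Q' ≤ Q := not_lt.mp ha
      rw [Fin.le_def] at hQQ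
      by_cases hlt : (Q : ℕ) < al P
      · have hcond' : ∀ p : Fin d, ((c'⁻¹ (c p) : Fin d) : ℕ) < al p := by
          intro p
          by_cases q1 : p = P
          · rw [q1, v4]; exact hlt
          · by_cases q2 : p = P'
            · rw [q2, v5]
              have := hal hPP'.le
              omega
            · rw [← v3 p q1 q2]; exact hcond p
        rw [if_pos hlt, if_pos hcond']
        have hR := Rst_swap h hal hc (fun p => ((c'⁻¹ (c p) : Fin d) : ℕ))
          (fun p => ((c'⁻¹ ((sw d i h * c) p) : Fin d) : ℕ)) (by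
            change ((c'⁻¹ ((sw d i h * c) P) : Fin d) : ℕ) = ((c'⁻¹ (c P') : Fin d) : ℕ)
            rw [v1, v5]) (by
            change ((c'⁻¹ ((sw d i h * c) P') : Fin d) : ℕ) = ((c'⁻¹ (c P) : Fin d) : ℕ)
            rw [v2, v4]) (by
            intro p h1 h2
            rw [v3 p h1 h2]) (by
            change ((c'⁻¹ (c P) : Fin d) : ℕ) < al P
            rw [v4]; exact hlt) (by
            change ((c'⁻¹ (c P') : Fin d) : ℕ) < al P
            rw [v5]; exact c1)
        rw [hR, pow_succ]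
        ring
      · have hcond' : ¬ ∀ p : Fin d, ((c'⁻¹ (c p) : Fin d) : ℕ) < al p := by
          intro hall
          have := hall P
          rw [v4] at this
          exact hlt this
        rw [if_neg hlt, if_neg hcond', add_zero, mul_zero, add_zero]
  · rw [if_neg hcond, if_neg hcond, mul_zero, zero_add]
    by_cases ha : Asc h c'
    · rw [if_pos ha, zero_mul]
    · rw [if_neg ha]
      have hcond' : ¬ ∀ p : Fin d, ((c'⁻¹ (c p) : Fin d) : ℕ) < al p := by
        intro hall
        apply hcond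
        have c1 := hall P
        have c2 := hall P'
        rw [v4] at c1
        rw [v5] at c2
        have hQQ : Q' ≤ Q := not_lt.mp ha
        rw [Fin.le_def] at hQQ
        have hPa := hal hPP'.le
        intro p
        by_cases q1 : p = P
        · rw [q1, v1]; omega
        · by_cases q2 : p = P'
          · rw [q2, v2]; omega
          · rw [v3 p q1 q2]; exact hall p
      rw [if_neg hcond', mul_zero]

theorem gen_id {K : Type*} [CommRing K] (q : K) {al : Fin d → ℕ} (hal : Monotone al)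
    (c' c : Equiv.Perm (Fin d)) :
    Bmat q al c' (sw d i h * c) * (if Asc h c then 1 else q) +
      Bmat q al c' c * (if Asc h c then 0 else q - 1) =
      (if Asc h c' then q else 1) * Bmat q al (sw d i h * c') c +
      (if Asc h c' then 0 else q - 1) * Bmat q al c' c := by
  by_cases hc : Asc h c
  · rw [if_pos hc, if_pos hc, mul_one, mul_zero, add_zero]
    exact asc_id h q hal c' c hc
  · rw [if_neg hc, if_neg hc]
    have hc0 : Asc h (sw d i h * c) := (asc_sw h c).2 hc
    have I1 := asc_id h q hal c' _ hc0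
    have I2 := asc_id h q hal (sw d i h * c') _ hc0
    rw [sw_sw_mul] at I1 I2
    rw [sw_sw_mul] at I2
    by_cases ha : Asc h c'
    · have ha' : ¬ Asc h (sw d i h * c') := fun h1 => (asc_sw h c').1 h1 ha
      simp only [if_pos ha, if_neg ha'] at I1 I2 ⊢
      linear_combination (q - 1) * I1 - q * I2
    · have ha' : Asc h (sw d i h * c') := (asc_sw h c').2 ha
      simp only [if_neg ha, if_pos ha'] at I1 I2 ⊢
      linear_combination -I2

end

end M3

open M3 in
theorem Bmat_comm {K : Type*} [CommRing K] (q : K) {d : ℕ} (al : Fin d → ℕ)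
    (hal : Monotone al) : Comm q (Bmat q al) := by
  intro i h
  ext c' c
  rw [Matrix.mul_apply, Matrix.mul_apply]
  have hL : ∑ c'', Bmat q al c' c'' * Rop q d i h c'' c =
      Bmat q al c' (sw d i h * c) * (if Asc h c then 1 else q) +
      Bmat q al c' c * (if Asc h c then 0 else q - 1) := by
    rw [← Finset.sum_subset (subset_univ {sw d i h * c, c})]
    · rw [sum_pair (sw_ne h c)]
      congr 1
      · unfold Rop Asc
        rw [if_pos rfl]
      · unfold Rop Asc
        rw [if_neg (sw_ne h c).symm, if_pos rfl]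
    · intro x _ hx
      rw [mem_insert, mem_singleton, not_or] at hx
      unfold Rop
      rw [if_neg hx.1, if_neg hx.2, mul_zero]
  have hR : ∑ c'', Rop q d i h c' c'' * Bmat q al c'' c =
      (if Asc h c' then q else 1) * Bmat q al (sw d i h * c') c +
      (if Asc h c' then 0 else q - 1) * Bmat q al c' c := by
    rw [← Finset.sum_subset (subset_univ {sw d i h * c', c'})]
    · rw [sum_pair (sw_ne h c')]
      congr 1
      · have h1 : Rop q d i h c' (sw d i h * c') = if Asc h (sw d i h * c') then 1 else q := by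
          unfold Rop Asc
          rw [if_pos (sw_sw_mul h c').symm]
        rw [h1]
        by_cases ha : Asc h c'
        · rw [if_pos ha, if_neg (fun h1 => (asc_sw h c').1 h1 ha)]
        · rw [if_neg ha, if_pos ((asc_sw h c').2 ha)]
      · have h1 : Rop q d i h c' c' = if Asc h c' then 0 else q - 1 := by
          unfold Rop Asc
          rw [if_neg (sw_ne h c').symm, if_pos rfl]
        rw [h1]
    · intro x _ hx
      rw [mem_insert, mem_singleton, not_or] at hx
      unfold Rop
      have h1 : c' ≠ sw d i h * x := by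
        intro he
        apply hx.1
        rw [he, sw_sw_mul]
      rw [if_neg h1, if_neg (Ne.symm hx.2), zero_mul]
  rw [hL, hR]
  exact gen_id h q hal c' c

end Pool.Agent.Lib.MP_0e7911_co_h50
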