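import Pool.Agent.Lib.MP_0e7911_co_h50.KeyDefs

/-!
# MP_0e7911_co, M7g: the energy and its steps
-/

set_option autoImplicit false

namespace Pool.Agent.Lib.MP_0e7911_co_h50

open Finset

/-- `Esum` in terms of the levels of the profile and of the base `S` -/
def Ecum (b e a : ℕ) {N : ℕ} (F : ℕ → Fin (e + 1) → Key N) (S : ℤ) : ℤ :=
  ∑ i ∈ range (b + 1), ∑ r : Fin (e + 1),
    (min 0 (((F i r).lev - S + (((e + 1) * a : ℕ) : ℤ)) / (((e + 1) * (b + 1) : ℕ) : ℤ)) -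
      min 0 (((F i r).lev - S) / (((e + 1) * (b + 1) : ℕ) : ℤ)))

theorem Ecum_zero {b e a N : ℕ} (F : ℕ → Fin (e + 1) → Key N) (hpos : ∀ i r, 0 ≤ (F i r).lev) :
    Ecum b e a F 0 = 0 := by
  unfold Ecum
  refine sum_eq_zero fun i _ => sum_eq_zero fun r _ => ?_
  have h1 : 0 ≤ ((F i r).lev - 0 + (((e + 1) * a : ℕ) : ℤ)) / (((e + 1) * (b + 1) : ℕ) : ℤ) := by
    apply Int.ediv_nonneg
    · have := hpos i r; positivity
    · positivity
  have h2 : 0 ≤ ((F i r).lev - 0) / (((e + 1) * (b + 1) : ℕ) : ℤ) := by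
    apply Int.ediv_nonneg
    · have := hpos i r; linarith
    · positivity
  rw [min_eq_left h1, min_eq_left h2, sub_self]

namespace M7g

/-- step of one term -/
theorem step {n : ℤ} (hn : 0 < n) (u : ℤ) :
    min 0 ((u - 1) / n) = min 0 (u / n) - (if n ∣ u ∧ u ≤ 0 then 1 else 0) := by
  by_cases hd : n ∣ u
  · obtain ⟨k, rfl⟩ := hd
    have h1 : n * k / n = k := Int.mul_ediv_cancel_left k hn.ne'
    have h2 : (n * k - 1) / n = k - 1 := by
      have : n * k - 1 = (n - 1) + n * (k - 1) := by ring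
      rw [this, Int.add_mul_ediv_left _ _ hn.ne', Int.ediv_eq_zero_of_lt (by omega) (by omega)]
      ring
    rw [h1, h2]
    by_cases hk : k ≤ 0
    · have h3 : n * k ≤ 0 := mul_nonpos_of_nonneg_of_nonpos hn.le hk
      rw [if_pos ⟨dvd_mul_right n k, h3⟩, min_eq_right hk, min_eq_right (by omega)]
    · have h3 : ¬ n * k ≤ 0 := by
        have : 0 < n * k := mul_pos hn (by omega)
        omega
      rw [if_neg (fun h => h3 h.2), min_eq_left (by omega), min_eq_left (by omega)]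
      ring
  · rw [if_neg (fun h => hd h.1), sub_zero]
    congr 1
    have h1 : 0 < u % n := lt_of_le_of_ne (Int.emod_nonneg u hn.ne')
      (fun h => hd (Int.dvd_of_emod_eq_zero h.symm))
    have h2 : u % n < n := Int.emod_lt_of_pos u hn
    have h3 : u - 1 = (u % n - 1) + n * (u / n) := by
      have := Int.emod_add_mul_ediv u n
      linarith
    rw [h3, Int.add_mul_ediv_left _ _ hn.ne', Int.ediv_eq_zero_of_lt (by omega) (by omega), zero_add]

/-- steps of the energy -/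
theorem Ecum_step {b e a N : ℕ} (F : ℕ → Fin (e + 1) → Key N) (S : ℤ) :
    Ecum b e a F (S + 1) = Ecum b e a F S +
      (∑ i ∈ range (b + 1), ∑ r : Fin (e + 1),
        if (((e + 1) * (b + 1) : ℕ) : ℤ) ∣ (F i r).lev - S ∧ (F i r).lev ≤ S then (1 : ℤ) else 0) -
      (∑ i ∈ range (b + 1), ∑ r : Fin (e + 1),
        if (((e + 1) * (b + 1) : ℕ) : ℤ) ∣ (F i r).lev + (((e + 1) * a : ℕ) : ℤ) - S ∧
          (F i r).lev + (((e + 1) * a : ℕ) : ℤ) ≤ S then (1 : ℤ) else 0) := by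
  have hn : 0 < (((e + 1) * (b + 1) : ℕ) : ℤ) := by positivity
  unfold Ecum
  rw [← sum_add_distrib, ← sum_sub_distrib]
  refine sum_congr rfl fun i _ => ?_
  rw [← sum_add_distrib, ← sum_sub_distrib]
  refine sum_congr rfl fun r _ => ?_
  have h1 := step hn ((F i r).lev - S + (((e + 1) * a : ℕ) : ℤ))
  have h2 := step hn ((F i r).lev - S)
  have e1 : (F i r).lev - (S + 1) + (((e + 1) * a : ℕ) : ℤ) =
      (F i r).lev - S + (((e + 1) * a : ℕ) : ℤ) - 1 := by ring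
  have e2 : (F i r).lev - (S + 1) = (F i r).lev - S - 1 := by ring
  have e3 : (F i r).lev - S + (((e + 1) * a : ℕ) : ℤ) =
      (F i r).lev + (((e + 1) * a : ℕ) : ℤ) - S := by ring
  have c1 : ((F i r).lev + (((e + 1) * a : ℕ) : ℤ) - S ≤ 0) ↔
      ((F i r).lev + (((e + 1) * a : ℕ) : ℤ) ≤ S) := by constructor <;> intro h <;> linarith
  have c2 : ((F i r).lev - S ≤ 0) ↔ ((F i r).lev ≤ S) := by constructor <;> intro h <;> linarith
  rw [e1, e2, h1, h2, e3]
  simp only [c1, c2]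
  ring

end M7g

/-- one step of the energy -/
theorem Ecum_succ {b e a N : ℕ} (ha : 0 < a) (hcop : Nat.Coprime a (b + 1))
    (F : ℕ → Fin (e + 1) → Key N) (hper : ∀ i, F (i + (b + 1)) = F i)
    (hlev : ∀ (i : ℕ) (r : Fin (e + 1)),
      ((((e + 1) * (b + 1) : ℕ) : ℤ)) ∣ (F i r).lev - (((e + 1) * a : ℕ) : ℤ) * (i : ℤ))
    (S j : ℕ) (hSj : ((((e + 1) * (b + 1) : ℕ) : ℤ)) ∣ (S : ℤ) - (((e + 1) * a : ℕ) : ℤ) * (j : ℤ)) :
    Ecum b e a F ((S : ℤ) + 1) = Ecum b e a F (S : ℤ) +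
      ((univ.filter (fun r : Fin (e + 1) => (F j r).lev ≤ (S : ℤ))).card : ℤ) -
      ((univ.filter (fun r : Fin (e + 1) =>
        (F (j + b) r).lev + (((e + 1) * a : ℕ) : ℤ) ≤ (S : ℤ))).card : ℤ) := by
  have hperk : ∀ k i, F (i + (b + 1) * k) = F i := by
    intro k
    induction k with
    | zero => intro i; rw [mul_zero, add_zero]
    | succ k ih => intro i; rw [mul_add, mul_one, ← add_assoc, hper, ih]
  have hmod : ∀ i, F (i % (b + 1)) = F i := by
    intro i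
    have h := hperk (i / (b + 1)) (i % (b + 1))
    rw [Nat.mod_add_div] at h
    exact h.symm
  -- divisibility
  have hdiv : ∀ (i j' : ℕ), ((((e + 1) * (b + 1) : ℕ) : ℤ)) ∣
      (((e + 1) * a : ℕ) : ℤ) * (i : ℤ) - (((e + 1) * a : ℕ) : ℤ) * (j' : ℤ) ↔
      i % (b + 1) = j' % (b + 1) := by
    intro i j'
    have e1 : (((e + 1) * a : ℕ) : ℤ) * (i : ℤ) - (((e + 1) * a : ℕ) : ℤ) * (j' : ℤ) =
        ((e + 1 : ℕ) : ℤ) * ((a : ℤ) * ((i : ℤ) - (j' : ℤ))) := by push_cast; ring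
    have e2 : ((((e + 1) * (b + 1) : ℕ) : ℤ)) = ((e + 1 : ℕ) : ℤ) * ((b + 1 : ℕ) : ℤ) := by
      push_cast; ring
    rw [e1, e2, mul_dvd_mul_iff_left (by positivity)]
    have hc : IsCoprime ((b + 1 : ℕ) : ℤ) (a : ℤ) := Nat.isCoprime_iff_coprime.mpr hcop.symm
    constructor
    · intro h'
      have h := hc.dvd_of_dvd_mul_left h'
      have : ((j' : ℤ)) ≡ (i : ℤ) [ZMOD ((b + 1 : ℕ) : ℤ)] := (Int.modEq_iff_dvd).mpr h
      exact (Int.natCast_modEq_iff.mp this).symm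
    · intro h
      have h' : j' ≡ i [MOD (b + 1)] := h.symm
      exact ((Int.modEq_iff_dvd).mp (Int.natCast_modEq_iff.mpr h')).mul_left _
  rw [M7g.Ecum_step]
  congr 1
  · congr 1
    rw [sum_eq_single_of_mem (j % (b + 1)) (mem_range.mpr (Nat.mod_lt _ (Nat.succ_pos b)))]
    · rw [hmod, card_filter, Nat.cast_sum]
      refine sum_congr rfl fun r _ => ?_
      have hd : ((((e + 1) * (b + 1) : ℕ) : ℤ)) ∣ (F j r).lev - (S : ℤ) := by
        have := dvd_sub (hlev j r) hSj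
        have e3 : (F j r).lev - (((e + 1) * a : ℕ) : ℤ) * (j : ℤ) -
            ((S : ℤ) - (((e + 1) * a : ℕ) : ℤ) * (j : ℤ)) = (F j r).lev - (S : ℤ) := by ring
        rwa [e3] at this
      by_cases h : (F j r).lev ≤ (S : ℤ)
      · rw [if_pos ⟨hd, h⟩, if_pos h, Nat.cast_one]
      · rw [if_neg (fun h' => h h'.2), if_neg h, Nat.cast_zero]
    · intro i hi hne
      refine sum_eq_zero fun r _ => if_neg fun h => hne ?_
      have h1 : ((((e + 1) * (b + 1) : ℕ) : ℤ)) ∣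
          (((e + 1) * a : ℕ) : ℤ) * (i : ℤ) - (((e + 1) * a : ℕ) : ℤ) * (j : ℤ) := by
        have := dvd_add (dvd_sub h.1 (hlev i r)) hSj
        have e3 : (F i r).lev - (S : ℤ) - ((F i r).lev - (((e + 1) * a : ℕ) : ℤ) * (i : ℤ)) +
            ((S : ℤ) - (((e + 1) * a : ℕ) : ℤ) * (j : ℤ)) =
            (((e + 1) * a : ℕ) : ℤ) * (i : ℤ) - (((e + 1) * a : ℕ) : ℤ) * (j : ℤ) := by ring
        rwa [e3] at this
      have h2 := (hdiv i j).mp h1
      rw [Nat.mod_eq_of_lt (mem_range.mp hi)] at h2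
      exact h2
  · rw [sum_eq_single_of_mem ((j + b) % (b + 1)) (mem_range.mpr (Nat.mod_lt _ (Nat.succ_pos b)))]
    · rw [hmod, card_filter, Nat.cast_sum]
      refine sum_congr rfl fun r _ => ?_
      have hd : ((((e + 1) * (b + 1) : ℕ) : ℤ)) ∣
          (F (j + b) r).lev + (((e + 1) * a : ℕ) : ℤ) - (S : ℤ) := by
        have h0 := dvd_sub (hlev (j + b) r) hSj
        have h1 : ((((e + 1) * (b + 1) : ℕ) : ℤ)) ∣ (((e + 1) * a : ℕ) : ℤ) * ((b : ℤ) + 1) := by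
          refine ⟨(a : ℤ), ?_⟩
          push_cast; ring
        have := dvd_add h0 h1
        have e3 : (F (j + b) r).lev - (((e + 1) * a : ℕ) : ℤ) * ((j + b : ℕ) : ℤ) -
            ((S : ℤ) - (((e + 1) * a : ℕ) : ℤ) * (j : ℤ)) + (((e + 1) * a : ℕ) : ℤ) * ((b : ℤ) + 1) =
            (F (j + b) r).lev + (((e + 1) * a : ℕ) : ℤ) - (S : ℤ) := by push_cast; ring
        rwa [e3] at this
      by_cases h : (F (j + b) r).lev + (((e + 1) * a : ℕ) : ℤ) ≤ (S : ℤ)
      · rw [if_pos ⟨hd, h⟩, if_pos h, Nat.cast_one]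
      · rw [if_neg (fun h' => h h'.2), if_neg h, Nat.cast_zero]
    · intro i hi hne
      refine sum_eq_zero fun r _ => if_neg fun h => hne ?_
      have h1 : ((((e + 1) * (b + 1) : ℕ) : ℤ)) ∣
          (((e + 1) * a : ℕ) : ℤ) * (i : ℤ) - (((e + 1) * a : ℕ) : ℤ) * ((j + b : ℕ) : ℤ) := by
        have h0 := dvd_add (dvd_sub h.1 (hlev i r)) hSj
        have h1 : ((((e + 1) * (b + 1) : ℕ) : ℤ)) ∣ (((e + 1) * a : ℕ) : ℤ) * ((b : ℤ) + 1) := by
          refine ⟨(a : ℤ), ?_⟩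
          push_cast; ring
        have := dvd_sub h0 h1
        have e3 : (F i r).lev + (((e + 1) * a : ℕ) : ℤ) - (S : ℤ) -
            ((F i r).lev - (((e + 1) * a : ℕ) : ℤ) * (i : ℤ)) +
            ((S : ℤ) - (((e + 1) * a : ℕ) : ℤ) * (j : ℤ)) - (((e + 1) * a : ℕ) : ℤ) * ((b : ℤ) + 1) =
            (((e + 1) * a : ℕ) : ℤ) * (i : ℤ) - (((e + 1) * a : ℕ) : ℤ) * ((j + b : ℕ) : ℤ) := by
          push_cast; ring
        rwa [e3] at this
      have h2 := (hdiv i (j + b)).mp h1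
      rw [Nat.mod_eq_of_lt (mem_range.mp hi)] at h2
      exact h2

/-- no step at other bases -/
theorem Ecum_succ' {b e a N : ℕ} (ha : 0 < a)
    (F : ℕ → Fin (e + 1) → Key N)
    (hlev : ∀ (i : ℕ) (r : Fin (e + 1)),
      ((((e + 1) * (b + 1) : ℕ) : ℤ)) ∣ (F i r).lev - (((e + 1) * a : ℕ) : ℤ) * (i : ℤ))
    (S : ℕ) (hS : ¬ (((e + 1 : ℕ) : ℤ)) ∣ (S : ℤ)) :
    Ecum b e a F ((S : ℤ) + 1) = Ecum b e a F (S : ℤ) := by
  have hen : (((e + 1 : ℕ) : ℤ)) ∣ ((((e + 1) * (b + 1) : ℕ) : ℤ)) := by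
    rw [Nat.cast_mul]; exact dvd_mul_right _ _
  have hem : (((e + 1 : ℕ) : ℤ)) ∣ (((e + 1) * a : ℕ) : ℤ) := by
    rw [Nat.cast_mul]; exact dvd_mul_right _ _
  have hel : ∀ i r, (((e + 1 : ℕ) : ℤ)) ∣ (F i r).lev := by
    intro i r
    have h := dvd_add (hen.trans (hlev i r)) (hem.mul_right (i : ℤ))
    rwa [sub_add_cancel] at h
  rw [M7g.Ecum_step, sum_eq_zero, sum_eq_zero]
  · ring
  · intro i _
    refine sum_eq_zero fun r _ => if_neg fun h => hS ?_
    have h1 := dvd_sub (dvd_add (hel i r) hem) (hen.trans h.1)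
    rwa [sub_sub_cancel] at h1
  · intro i _
    refine sum_eq_zero fun r _ => if_neg fun h => hS ?_
    have h1 := dvd_sub (hel i r) (hen.trans h.1)
    rwa [sub_sub_cancel] at h1

/-- the total energy -/
theorem Ecum_large {b e a N : ℕ} (ha : 0 < a)
    (F : ℕ → Fin (e + 1) → Key N) (hper : ∀ i, F (i + (b + 1)) = F i)
    (hlev : ∀ (i : ℕ) (r : Fin (e + 1)),
      ((((e + 1) * (b + 1) : ℕ) : ℤ)) ∣ (F i r).lev - (((e + 1) * a : ℕ) : ℤ) * (i : ℤ))
    (S : ℤ) (hS : ∀ i r, (F i r).lev + (((e + 1) * a : ℕ) : ℤ) ≤ S) :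
    Ecum b e a F S = (((e + 1) * a : ℕ) : ℤ) := by
  have hn : 0 < (((e + 1) * (b + 1) : ℕ) : ℤ) := by positivity
  set n : ℤ := (((e + 1) * (b + 1) : ℕ) : ℤ) with hnd
  set M : ℤ := (((e + 1) * a : ℕ) : ℤ) with hM
  have hM0 : 0 ≤ M := by positivity
  have key : ∀ i ∈ range (b + 1), ∑ r : Fin (e + 1),
      (min 0 (((F i r).lev - S + M) / n) - min 0 (((F i r).lev - S) / n)) =
      ((e + 1 : ℕ) : ℤ) * ((M * ((i + 1 : ℕ) : ℤ) - S) / n - (M * (i : ℤ) - S) / n) := by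
    intro i _
    have h : ∀ r : Fin (e + 1), (min 0 (((F i r).lev - S + M) / n) - min 0 (((F i r).lev - S) / n)) =
        ((M * ((i + 1 : ℕ) : ℤ) - S) / n - (M * (i : ℤ) - S) / n) := by
      intro r
      have hle := hS i r
      rw [min_eq_right (Int.ediv_nonpos_of_nonpos_of_neg (by linarith) hn),
        min_eq_right (Int.ediv_nonpos_of_nonpos_of_neg (by linarith) hn)]
      obtain ⟨k, hk⟩ := hlev i r
      have e1 : (F i r).lev - S + M = (M * ((i + 1 : ℕ) : ℤ) - S) + n * k := by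
        push_cast
        rw [← hk]; ring
      have e2 : (F i r).lev - S = (M * (i : ℤ) - S) + n * k := by
        rw [← hk]; ring
      rw [e1, e2, Int.add_mul_ediv_left _ _ hn.ne', Int.add_mul_ediv_left _ _ hn.ne']
      ring
    rw [sum_congr rfl (fun r _ => h r), sum_const, card_univ, Fintype.card_fin, nsmul_eq_mul]
  unfold Ecum
  rw [sum_congr rfl key, ← mul_sum, sum_range_sub (fun i : ℕ => (M * (i : ℤ) - S) / n)]
  have e3 : M * ((b + 1 : ℕ) : ℤ) - S = (M * ((0 : ℕ) : ℤ) - S) + n * (a : ℤ) := by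
    rw [hM, hnd]; push_cast; ring
  rw [e3, Int.add_mul_ediv_left _ _ hn.ne']
  rw [hM]; push_cast; ring

/-- `Esum` of a path whose level multiset is the one of the profile -/
theorem Esum_eq_Ecum {b e a N : ℕ} (F : ℕ → Fin (e + 1) → Key N)
    (x : Fin ((e + 1) * (b + 1)) → ℕ) (w : Fin ((e + 1) * (b + 1)) → Fin N) (S : ℤ)
    (hmul : Multiset.map (fun p : Fin (b + 1) × Fin (e + 1) =>
          ((F (p.1 : ℕ) p.2).lev, (F (p.1 : ℕ) p.2).lab)) univ.val =
        Multiset.map (fun i => (lam ((e + 1) * a) x i + S, w i)) univ.val) :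
    Esum ((e + 1) * a) x = Ecum b e a F S := by
  set g : ℤ × Fin N → ℤ := fun z =>
    min 0 ((z.1 - S + (((e + 1) * a : ℕ) : ℤ)) / (((e + 1) * (b + 1) : ℕ) : ℤ)) -
      min 0 ((z.1 - S) / (((e + 1) * (b + 1) : ℕ) : ℤ)) with hg
  have h1 : Ecum b e a F S = (Multiset.map g (Multiset.map (fun p : Fin (b + 1) × Fin (e + 1) =>
          ((F (p.1 : ℕ) p.2).lev, (F (p.1 : ℕ) p.2).lab)) univ.val)).sum := by
    rw [Multiset.map_map]
    change _ = ∑ p : Fin (b + 1) × Fin (e + 1), _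
    rw [Fintype.sum_prod_type]
    unfold Ecum
    rw [← Fin.sum_univ_eq_sum_range (fun i => ∑ r : Fin (e + 1),
    (min 0 (((F i r).lev - S + (((e + 1) * a : ℕ) : ℤ)) / (((e + 1) * (b + 1) : ℕ) : ℤ)) -
      min 0 (((F i r).lev - S) / (((e + 1) * (b + 1) : ℕ) : ℤ))))]
    rfl
  have h2 : Esum ((e + 1) * a) x = (Multiset.map g
      (Multiset.map (fun i => (lam ((e + 1) * a) x i + S, w i)) univ.val)).sum := by
    rw [Multiset.map_map]
    change _ = ∑ i : Fin ((e + 1) * (b + 1)), _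
    unfold Esum
    refine sum_congr rfl fun i _ => ?_
    simp only [hg, Function.comp_apply, add_sub_cancel_right]
  rw [h1, h2, hmul]

end Pool.Agent.Lib.MP_0e7911_co_h50
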