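import Pool.Agent.Lib.MP_0e7911_co_h13.MacDefs

/-! The eigenvalues, transposition, and generation by the `h`'s. -/

set_option autoImplicit false

namespace Pool.Agent.Lib.MP_0e7911_co_full

open Finset Pool.Agent.Lib.MP_0e7911_co_h56

variable {K : Type*} [Field K]

theorem cl_eq_sum (q t : K) (L : List ℕ) :
    cl q t L = 1 - (1 - t) * ∑ i ∈ range L.length, t ^ i * (1 - q ^ (L.getD i 0)) := by
  induction L with
  | nil => simp [cl]
  | cons n k ih =>
    rw [cl, ih, List.length_cons, Finset.sum_range_succ']
    simp only [List.getD_cons_succ, List.getD_cons_zero, pow_zero, one_mul]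
    have : ∑ i ∈ range k.length, t ^ (i + 1) * (1 - q ^ (k.getD i 0)) =
        t * ∑ i ∈ range k.length, t ^ i * (1 - q ^ (k.getD i 0)) := by
      rw [Finset.mul_sum]
      apply Finset.sum_congr rfl
      intro i _
      ring
    rw [this]
    ring

theorem sum_cells {M : Type*} [AddCommMonoid M] (μ : YoungDiagram) (f : ℕ × ℕ → M) :
    ∑ c ∈ μ.cells, f c = ∑ i ∈ range (μ.colLen 0), ∑ j ∈ range (μ.rowLen i), f (i, j) := by
  rw [Finset.sum_sigma']
  apply Finset.sum_nbij' (fun c => ⟨c.1, c.2⟩) (fun s => (s.1, s.2))
  · rintro ⟨i, j⟩ hc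
    simp only [Finset.mem_sigma, Finset.mem_range]
    rw [YoungDiagram.mem_cells] at hc
    exact ⟨YoungDiagram.mem_iff_lt_colLen.mp (μ.up_left_mem le_rfl (Nat.zero_le j) hc),
      YoungDiagram.mem_iff_lt_rowLen.mp hc⟩
  · rintro ⟨i, j⟩ hc
    simp only [Finset.mem_sigma, Finset.mem_range] at hc
    rw [YoungDiagram.mem_cells]
    exact YoungDiagram.mem_iff_lt_rowLen.mpr hc.2
  · rintro ⟨i, j⟩ _
    rfl
  · rintro ⟨i, j⟩ _
    rfl
  · rintro ⟨i, j⟩ _
    rfl

theorem cl_rowLens (q t : K) (μ : YoungDiagram) :
    cl q t μ.rowLens = 1 - (1 - q) * (1 - t) * Bmu q t μ := by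
  rw [cl_eq_sum]
  unfold Bmu
  rw [sum_cells μ (fun c => q ^ c.2 * t ^ c.1), YoungDiagram.length_rowLens, mul_assoc,
    mul_comm (1 - q), mul_assoc, Finset.sum_mul]
  congr 2
  apply Finset.sum_congr rfl
  intro i hi
  rw [Finset.mem_range] at hi
  have h1 : μ.rowLens.getD i 0 = μ.rowLen i := by
    rw [List.getD_eq_getElem _ _ (by rwa [YoungDiagram.length_rowLens]), YoungDiagram.get_rowLens]
  rw [h1]
  simp only
  rw [← Finset.sum_mul, mul_comm (∑ j ∈ range (μ.rowLen i), q ^ j), mul_assoc]
  congr 1
  rw [mul_comm, mul_neg_geom_sum]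

theorem Bmu_transpose (q t : K) (μ : YoungDiagram) : Bmu t q μ.transpose = Bmu q t μ := by
  unfold Bmu
  apply Finset.sum_nbij' Prod.swap Prod.swap
  · rintro ⟨i, j⟩ hc
    rw [YoungDiagram.mem_cells, YoungDiagram.mem_transpose] at hc
    rw [YoungDiagram.mem_cells]
    exact hc
  · rintro ⟨i, j⟩ hc
    rw [YoungDiagram.mem_cells] at hc ⊢
    rw [YoungDiagram.mem_transpose]
    exact hc
  · rintro ⟨i, j⟩ _
    rfl
  · rintro ⟨i, j⟩ _
    rfl
  · rintro ⟨i, j⟩ _
    simp only [Prod.swap]
    rw [mul_comm]

theorem hl_append (L L' : List ℕ) : hl K (L ++ L') = hl K L * hl K L' := by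
  unfold hl
  rw [List.map_append, List.prod_append]

theorem homog_succ [CharZero K] (n : ℕ) :
    (n + 1 : ℕ) • homog K (n + 1) = ∑ k : Fin (n + 1), psum K (k + 1) * homog K (n - k) := by
  have hne : ((n + 1 : ℕ) : K) ≠ 0 := by exact_mod_cast Nat.succ_ne_zero n
  rw [homog, nsmul_eq_mul, ← mul_assoc]
  have : ((n + 1 : ℕ) : SymF K) = MvPolynomial.C ((n + 1 : ℕ) : K) := by
    rw [map_natCast]
  rw [this, ← map_mul, mul_inv_cancel₀ hne, map_one, one_mul]

theorem psum_mem_adjoin [CharZero K] (n : ℕ) :
    psum K (n + 1) ∈ Algebra.adjoin K (Set.range (homog K)) := by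
  induction n using Nat.strong_induction_on with
  | _ n ih =>
    have h := homog_succ (K := K) n
    rw [Fin.sum_univ_castSucc] at h
    simp only [Fin.val_castSucc, Fin.val_last, Nat.sub_self] at h
    rw [homog, mul_one, ← sub_eq_iff_eq_add'] at h
    rw [← h]
    have hh : ∀ j, homog K j ∈ Algebra.adjoin K (Set.range (homog K)) := fun j =>
      Algebra.subset_adjoin ⟨j, rfl⟩
    apply sub_mem
    · exact nsmul_mem (hh _) _
    · apply sum_mem
      intro k _
      exact mul_mem (ih k k.2) (hh _)

theorem adjoin_homog [CharZero K] : Algebra.adjoin K (Set.range (homog K)) = ⊤ := by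
  rw [← MvPolynomial.adjoin_range_X, eq_comm]
  apply le_antisymm
  · apply Algebra.adjoin_le
    rintro _ ⟨j, rfl⟩
    exact psum_mem_adjoin j
  · rw [MvPolynomial.adjoin_range_X]
    exact le_top

theorem span_hl_list [CharZero K] :
    Submodule.span K {f | ∃ kap : List ℕ, f = hl K kap} = ⊤ := by
  have h := Algebra.adjoin_eq_span K (Set.range (homog K))
  rw [adjoin_homog, Algebra.top_toSubmodule] at h
  rw [eq_top_iff, h]
  apply Submodule.span_mono
  intro f hf
  obtain ⟨l, hl1, hl2⟩ := Submonoid.exists_list_of_mem_closure hf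
  rw [← hl2]
  clear hl2 hf
  induction l with
  | nil => exact ⟨[], rfl⟩
  | cons a l ih =>
    obtain ⟨kap, hk⟩ := ih (fun y hy => hl1 y (List.mem_cons_of_mem _ hy))
    obtain ⟨n, hn⟩ := hl1 a List.mem_cons_self
    refine ⟨n :: kap, ?_⟩
    rw [List.prod_cons, hl_cons, hk, hn]

theorem hl_perm {L L' : List ℕ} (h : L.Perm L') : hl K L = hl K L' := by
  unfold hl
  exact (h.map _).prod_eq

theorem hl_filter (L : List ℕ) : hl K (L.filter (fun n => 0 < n)) = hl K L := by
  induction L with
  | nil => rfl
  | cons n L ih =>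
    rcases Nat.eq_zero_or_pos n with h | h
    · subst h
      rw [List.filter_cons_of_neg (by simp), ih, hl_cons, homog, one_mul]
    · rw [List.filter_cons_of_pos (by simpa using h), hl_cons, hl_cons, ih]

theorem sum_filter_pos (L : List ℕ) : (L.filter (fun n => 0 < n)).sum = L.sum := by
  induction L with
  | nil => rfl
  | cons n L ih =>
    rcases Nat.eq_zero_or_pos n with h | h
    · subst h
      rw [List.filter_cons_of_neg (by simp), ih, List.sum_cons, zero_add]
    · rw [List.filter_cons_of_pos (by simpa using h), List.sum_cons, List.sum_cons, ih]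

/-- the sum of at most `k` entries is at most the sum of the `k` largest -/
theorem sum_le_take (L : List ℕ) (hL : L.SortedGE) (s : Multiset ℕ) (hs : s ≤ (L : Multiset ℕ))
    (k : ℕ) (hk : Multiset.card s ≤ k) : s.sum ≤ (L.take k).sum := by
  induction L generalizing s k with
  | nil =>
    have : s = 0 := by
      rw [Multiset.coe_nil] at hs
      exact Multiset.le_zero.mp hs
    rw [this]
    simp
  | cons a L ih =>
    have hL' : L.SortedGE := by
      have := hL.pairwise
      rw [List.pairwise_cons] at this
      exact this.2.sortedGE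
    have ha : ∀ b ∈ L, b ≤ a := by
      have := hL.pairwise
      rw [List.pairwise_cons] at this
      exact this.1
    rcases k with _ | k
    · have : s = 0 := by
        rw [← Multiset.card_eq_zero]
        omega
      rw [this]
      simp
    · rw [List.take_succ_cons, List.sum_cons]
      by_cases has : a ∈ s
      · obtain ⟨s', rfl⟩ := Multiset.exists_cons_of_mem has
        rw [Multiset.sum_cons]
        apply Nat.add_le_add_left
        apply ih hL' s'
        · rw [← Multiset.cons_coe] at hs
          exact (Multiset.cons_le_cons_iff a).mp hs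
        · rw [Multiset.card_cons] at hk
          omega
      · have hs' : s ≤ (L : Multiset ℕ) := by
          rw [← Multiset.cons_coe] at hs
          exact (Multiset.le_cons_of_notMem has).mp hs
        rcases Multiset.empty_or_exists_mem s with h | ⟨b, hb⟩
        · rw [h]
          simp
        · obtain ⟨s', rfl⟩ := Multiset.exists_cons_of_mem hb
          rw [Multiset.sum_cons]
          apply Nat.add_le_add
          · apply ha
            have := Multiset.mem_of_le hs' (Multiset.mem_cons_self b s')
            exact Multiset.mem_coe.mp this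
          · apply ih hL' s'
            · exact (Multiset.le_cons_self s' b).trans hs'
            · rw [Multiset.card_cons] at hk
              omega

theorem sum_take_rowLens (l : YoungDiagram) (k : ℕ) :
    (l.rowLens.take k).sum ≤ ∑ i ∈ range k, l.rowLen i := by
  rw [YoungDiagram.rowLens, ← List.map_take, List.take_range, ← List.sum_toFinset]
  · rw [List.toFinset_range]
    apply Finset.sum_le_sum_of_subset
    intro i
    rw [Finset.mem_range, Finset.mem_range]
    omega
  · exact List.nodup_range

theorem card_eq_sum_rowLens (l : YoungDiagram) : l.card = l.rowLens.sum := by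
  have h := sum_cells l (fun _ => 1)
  rw [Finset.sum_const, smul_eq_mul, mul_one] at h
  change l.cells.card = _
  rw [h, YoungDiagram.rowLens, ← List.sum_toFinset]
  · rw [List.toFinset_range]
    apply Finset.sum_congr rfl
    intro i _
    simp
  · exact List.nodup_range

theorem exists_diag (kap : List ℕ) : ∃ l : YoungDiagram, l.card = kap.sum ∧
    (∀ k, (kap.take k).sum ≤ ∑ i ∈ range k, l.rowLen i) ∧ hl K kap = hl K l.rowLens := by
  let L := ((kap.filter (fun n => 0 < n)).mergeSort (fun a b => decide (b ≤ a)))
  have hperm : L.Perm (kap.filter (fun n => 0 < n)) := List.mergeSort_perm _ _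
  have hL : L.SortedGE := by
    have h := List.pairwise_mergeSort (le := fun a b : ℕ => decide (b ≤ a))
      (fun a b c h1 h2 => by
        simp only [decide_eq_true_eq] at h1 h2 ⊢
        omega)
      (fun a b => by
        simp only [Bool.or_eq_true, decide_eq_true_eq]
        omega) (kap.filter (fun n => 0 < n))
    apply List.Pairwise.sortedGE
    exact h.imp (fun hab => by simpa using hab)
  have hpos : ∀ x ∈ L, 0 < x := by
    intro x hx
    have := hperm.mem_iff.mp hx
    rw [List.mem_filter] at this
    simpa using this.2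
  have hrl := YoungDiagram.rowLens_ofRowLens_eq_self (hw := hL) hpos
  refine ⟨YoungDiagram.ofRowLens L hL, ?_, ?_, ?_⟩
  · rw [card_eq_sum_rowLens, hrl, hperm.sum_eq, sum_filter_pos]
  · intro k
    refine le_trans ?_ (sum_take_rowLens _ k)
    rw [hrl, ← sum_filter_pos]
    have h1 := sum_le_take L hL ((kap.take k).filter (fun n => 0 < n) : List ℕ) (by
      rw [show (L : Multiset ℕ) = ((kap.filter (fun n => 0 < n) : List ℕ) : Multiset ℕ) from
        Multiset.coe_eq_coe.mpr hperm, Multiset.coe_le]
      exact ((List.take_sublist k kap).filter _).subperm) k (by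
      rw [Multiset.coe_card]
      exact (List.length_filter_le _ _).trans (List.length_take_le _ _))
    rw [Multiset.sum_coe] at h1
    exact h1
  · rw [hrl, hl_perm hperm, hl_filter]

theorem span_hl [CharZero K] :
    Submodule.span K {f | ∃ mu : YoungDiagram, f = hl K mu.rowLens} = ⊤ := by
  rw [← span_hl_list]
  congr 1
  ext f
  constructor
  · rintro ⟨mu, rfl⟩
    exact ⟨_, rfl⟩
  · rintro ⟨kap, rfl⟩
    obtain ⟨l, -, -, h⟩ := exists_diag (K := K) kap
    exact ⟨l, h⟩

end Pool.Agent.Lib.MP_0e7911_co_full
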